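import Pool.Agent.Helper18.XE.Defs

/-! XE-3: algebra of type (X3): the equations on `Π` and `Π'` are contradictory.
Write `Λ_j = L j 0 s + L j 1 t + L j 2 r`, `l = Λ_4`, `m = M 0 s + M 1 t + M 2 r`, `ν = dn 4`.  All identities hold for all `s t r`; compare coefficients (put
`(s,t,r) = (1,0,0), (0,1,0), (1,1,0), (1,0,1), (0,1,1), ..`).
`PE.a1`: `q12 - t * q02` with `e1 4 = e3 4 = 0`.  `PE.a2`: `q23`.
`PE.nz`: `l ≢ 0`: `l (e3 2 t - e3 3 s) = 0` gives `e3 2 = e3 3 = 0`; if `e0 4 = 0` then also `l (e3 0 t - e3 1 s) = 0`.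
`PE.z`: `l ≡ 0`, `M ≠ 0`: `m e0 4 t = 0`.
`PE.mir`: `e2 4 = 0`, `l ≢ 0`: `q01`: `l (e2 0 t - e2 1 s) = 0`; `a2`; `q02`: `l (e2 2 - e3 0) + ν s + 2 m e0 4 = 0`, `q13`: `l (e2 3 - e3 1) + ν t = 0`, `a1`; eliminate `m`, `ν`:
`l ((e2 2 + e3 0) t - (e3 1 + e2 3) s) = 0`.
`PE.case1`: `l ≡ 0`, `e0 4 = 0`: `q01`: `Λ_0 = ρ s`, `Λ_1 = ρ t`; `q02`: `e2 4 Λ_2 = ν s`, `q13`: `e2 4 Λ_3 = ν t`.  With `e0 = (0,β,0,δ,0)`, `e1 = (-β,0,-δ,0,0)` and
`ω = ρ e3 - (ν/e2 4) e2 + dn`: `q012` is `s (ω_0 t - ω_1 s) = 3 β s m`, `q023` is `s (ω_3 s - ω_2 t) = - 3 δ s m`; the `r`-part: `M 2 β = M 2 δ = 0`, so `M 2 = 0`, `ν = 0`;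
`ω_0 = 3 β M 1`, `ω_1 = - 3 β M 0`, `ω_3 = - 3 δ M 0`, `ω_2 = 3 δ M 1`, `dn = M 0 e0 + M 1 e1`, so `ρ e3 + 4 M 0 e0 + 4 M 1 e1 = 0` (component 4 is clear): `M 0 = M 1 = 0`.
`PE.case2`: `β = e3 1 ≠ 0`: `l (e3 0 t - β s) = m e0 4 t` (`a1`) gives `l = c t`, `c ≠ 0`, `m e0 4 = c (e3 0 t - β s)`, so `M 2 = 0`, `ν = M 0 e0 4 = - c β`; `e2 4 Λ_2 = c (t (e2 2 + e3 0) - 3 β s)`,
`e2 4 Λ_3 = c t (e2 3 - 2 β)`; the coefficient of `s²` in `e0 4 e2 4 q023` and of `s t` in `e0 4 e2 4 q123`.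
`alg3`: `L 4 ≠ 0`, so `l ≢ 0` on `Π` or on `Π'`.  `l ≡ 0` on `Π` iff `e 0 4 = 0`; on `Π'` iff `e 2 4 = 0` (`nz`, `z`; `e 3, e 1 ≠ 0`).
(i) `e 0 4 = 0`, `e 2 4 ≠ 0`: `PE.mir` on `Π'`, `PE.case1` on `Π`.  (ii) the mirror image.  (iii) both non zero: `B := e 0 4 * e 3 1`, `G := e 2 4 * e 1 2`,
`Z := e 0 4 * e 2 3 - e 2 4 * e 0 3`: `e 3 1 ≠ 0` implies `3 Z + G = 0`, `- B + 2 Z + 2 G = 0`; `e 1 2 ≠ 0` implies `- 3 Z + B = 0`, `- G - 2 Z + 2 B = 0`; so `e 3 1 = e 1 2 = 0`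
(in both cases all vanish), then `e 3` and `e 1` are multiples of `(1,0,0,0,0)`: contradiction. -/

set_option autoImplicit false

namespace Pool.Agent.Helper18.XE

variable {e0 e1 e2 e3 dn : Fin 5 → ℂ} {L : Fin 5 → Fin 3 → ℂ} {M : Fin 3 → ℂ}

private theorem vec0 {v : Fin 5 → ℂ} (h0 : v 0 = 0) (h1 : v 1 = 0) (h2 : v 2 = 0) (h3 : v 3 = 0)
    (h4 : v 4 = 0) : v = 0 := by
  funext i; fin_cases i <;> assumption

/-- cancellation of a factor of a product of two linear forms -/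
private theorem lcan {a b c p q : ℂ} (hl : ¬ (a = 0 ∧ b = 0 ∧ c = 0))
    (h : ∀ s t r : ℂ, (a * s + b * t + c * r) * (p * t - q * s) = 0) : p = 0 ∧ q = 0 := by
  -- coefficients: r t : c p, r s : - c q, s² : - a q, t² : b p, s t : a p - b q
  have h1 := h 1 0 0
  have h2 := h 0 1 0
  have h3 := h 1 1 0
  have h4 := h 1 0 1
  have h5 := h 0 1 1
  have k1 : a * q = 0 := by linear_combination - h1
  have k2 : b * p = 0 := by linear_combination h2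
  have k3 : a * p - b * q = 0 := by linear_combination h3 - h1 - h2
  have k4 : c * q = 0 := by linear_combination - h4 + h1
  have k5 : c * p = 0 := by linear_combination h5 - h2
  by_cases hc : c = 0
  · by_cases ha : a = 0
    · have hb : b ≠ 0 := fun hb => hl ⟨ha, hb, hc⟩
      refine ⟨(mul_eq_zero.1 k2).resolve_left hb, ?_⟩
      have k6 : b * q = 0 := by linear_combination - k3 + p * ha
      exact (mul_eq_zero.1 k6).resolve_left hb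
    · have hq : q = 0 := (mul_eq_zero.1 k1).resolve_left ha
      have k6 : a * p = 0 := by linear_combination k3 + b * hq
      exact ⟨(mul_eq_zero.1 k6).resolve_left ha, hq⟩
  · exact ⟨(mul_eq_zero.1 k5).resolve_left hc, (mul_eq_zero.1 k4).resolve_left hc⟩

theorem PE.a1 (h : PE e0 e1 e2 e3 dn L M) (h1 : e1 4 = 0) (h3 : e3 4 = 0) (s t r : ℂ) :
    (L 4 0 * s + L 4 1 * t + L 4 2 * r) * (e3 0 * t - e3 1 * s) =
      (M 0 * s + M 1 * t + M 2 * r) * e0 4 * t := by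
  have k1 := h.q12 s t r
  have k2 := h.q02 s t r
  rw [h1, h3] at k1
  rw [h3] at k2
  linear_combination k1 - t * k2

theorem PE.a2 (h : PE e0 e1 e2 e3 dn L M) (h3 : e3 4 = 0) (s t r : ℂ) :
    (L 4 0 * s + L 4 1 * t + L 4 2 * r) * (e3 2 * t - e3 3 * s) = 0 := by
  have k1 := h.q23 s t r
  rw [h3] at k1
  linear_combination - k1

theorem PE.nz (h : PE e0 e1 e2 e3 dn L M) (h1 : e1 4 = 0) (h3 : e3 4 = 0)
    (hl : ¬ (L 4 0 = 0 ∧ L 4 1 = 0 ∧ L 4 2 = 0)) :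
    e3 2 = 0 ∧ e3 3 = 0 ∧ (e0 4 = 0 → e3 0 = 0 ∧ e3 1 = 0) := by
  obtain ⟨k1, k2⟩ := lcan hl (h.a2 h3)
  refine ⟨k1, k2, fun h0 => lcan hl (fun s t r => ?_)⟩
  rw [h.a1 h1 h3, h0]
  ring

theorem PE.z (h : PE e0 e1 e2 e3 dn L M) (h1 : e1 4 = 0) (h3 : e3 4 = 0)
    (hl : L 4 0 = 0 ∧ L 4 1 = 0 ∧ L 4 2 = 0) (hM : ¬ (M 0 = 0 ∧ M 1 = 0 ∧ M 2 = 0)) :
    e0 4 = 0 := by
  by_contra h0
  have k : ∀ s t r : ℂ, (M 0 * s + M 1 * t + M 2 * r) * (e0 4 * t - 0 * s) = 0 := by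
    intro s t r
    have := h.a1 h1 h3 s t r
    rw [hl.1, hl.2.1, hl.2.2] at this
    linear_combination - this
  exact h0 (lcan hM k).1

theorem PE.mir (h : PE e0 e1 e2 e3 dn L M) (h1 : e1 4 = 0) (h3 : e3 4 = 0) (h2 : e2 4 = 0)
    (hl : ¬ (L 4 0 = 0 ∧ L 4 1 = 0 ∧ L 4 2 = 0)) :
    e2 0 = 0 ∧ e2 1 = 0 ∧ e3 2 = 0 ∧ e3 3 = 0 ∧ e3 0 = - e2 2 ∧ e3 1 = - e2 3 := by
  have k1 : ∀ s t r : ℂ, (L 4 0 * s + L 4 1 * t + L 4 2 * r) * (e2 0 * t - e2 1 * s) = 0 := by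
    intro s t r
    have := h.q01 s t r
    rw [h2] at this
    linear_combination - this
  obtain ⟨m1, m2⟩ := lcan hl k1
  obtain ⟨m3, m4⟩ := lcan hl (h.a2 h3)
  have k2 : ∀ s t r : ℂ, (L 4 0 * s + L 4 1 * t + L 4 2 * r) *
      ((e2 2 + e3 0) * t - (e3 1 + e2 3) * s) = 0 := by
    intro s t r
    have b1 := h.q02 s t r
    have b2 := h.q13 s t r
    have b3 := h.a1 h1 h3 s t r
    rw [h2, h3] at b1
    rw [h2, h3, h1] at b2
    linear_combination t * b1 - s * b2 + 2 * b3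
  obtain ⟨m5, m6⟩ := lcan hl k2
  exact ⟨m1, m2, m3, m4, by linear_combination m5, by linear_combination m6⟩

theorem PE.case1 (h : PE e0 e1 e2 e3 dn L M) (h1 : e1 4 = 0) (h3 : e3 4 = 0) (h0 : e0 4 = 0)
    (h2 : e2 4 ≠ 0) (hl : L 4 0 = 0 ∧ L 4 1 = 0 ∧ L 4 2 = 0) (e4 : Fin 5 → ℂ)
    (hdn : ∀ j, dn j = M 0 * e0 j + M 1 * e1 j + M 2 * e4 j) (h00 : e0 0 = 0) (h02 : e0 2 = 0)
    (h11 : e1 1 = 0) (h13 : e1 3 = 0) (h10 : e1 0 = - e0 1) (h12 : e1 2 = - e0 3)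
    (hi : LinearIndependent ℂ ![e0, e1, e3]) : M 0 = 0 ∧ M 1 = 0 ∧ M 2 = 0 := by
  obtain ⟨l0, l1, l2⟩ := hl
  have q : ∀ s t r : ℂ, (L 0 0 * s + L 0 1 * t + L 0 2 * r) * t -
      (L 1 0 * s + L 1 1 * t + L 1 2 * r) * s = 0 := by
    intro s t r
    have := h.q01 s t r
    rw [l0, l1, l2] at this
    refine (mul_eq_zero.1 (?_ : e2 4 * _ = 0)).resolve_left h2
    linear_combination this
  have a1 : L 1 0 = 0 := by linear_combination - q 1 0 0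
  have a2 : L 0 1 = 0 := by linear_combination q 0 1 0
  have a3 : L 1 2 = 0 := by linear_combination - q 1 0 1 + q 1 0 0
  have a4 : L 0 2 = 0 := by linear_combination q 0 1 1 - q 0 1 0
  have a5 : L 1 1 = L 0 0 := by linear_combination - q 1 1 0 + q 1 0 0 + q 0 1 0
  have r0 : ∀ s t r : ℂ, e2 4 * (L 2 0 * s + L 2 1 * t + L 2 2 * r) = dn 4 * s := by
    intro s t r
    have := h.q02 s t r
    rw [l0, l1, l2, h3, h0] at this
    linear_combination - this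
  have r1 : ∀ s t r : ℂ, e2 4 * (L 3 0 * s + L 3 1 * t + L 3 2 * r) = dn 4 * t := by
    intro s t r
    have := h.q13 s t r
    rw [l0, l1, l2, h3, h1] at this
    linear_combination - this
  have z : ∀ {x : ℂ}, e2 4 * x = 0 → x = 0 := fun hx => (mul_eq_zero.1 hx).resolve_left h2
  have b1 : L 2 1 = 0 := z (by linear_combination r0 0 1 0)
  have b2 : L 2 2 = 0 := z (by linear_combination r0 0 0 1)
  have b3 : L 3 0 = 0 := z (by linear_combination r1 1 0 0)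
  have b4 : L 3 2 = 0 := z (by linear_combination r1 0 0 1)
  have b5 : L 3 1 = L 2 0 := by
    have : L 3 1 - L 2 0 = 0 := z (by linear_combination r1 0 1 0 - r0 1 0 0)
    linear_combination this
  have b6 : e2 4 * L 2 0 = dn 4 := by linear_combination r0 1 0 0
  have u : ∀ s t r : ℂ, s * (s * (- L 0 0 * e3 1 + L 2 0 * e2 1 - dn 1) +
      t * (L 0 0 * e3 0 - L 2 0 * e2 0 + dn 0) -
      3 * e0 1 * (M 0 * s + M 1 * t + M 2 * r)) = 0 := by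
    intro s t r
    have := h.q012 s t r
    rw [a1, a2, a3, a4, a5, b1, b2, h00, h10] at this
    linear_combination this
  have v : ∀ s t r : ℂ, s * (s * (L 0 0 * e3 3 - L 2 0 * e2 3 + dn 3) +
      t * (- L 0 0 * e3 2 + L 2 0 * e2 2 - dn 2) +
      3 * e0 3 * (M 0 * s + M 1 * t + M 2 * r)) = 0 := by
    intro s t r
    have := h.q023 s t r
    rw [a2, a4, b1, b2, b3, b4, b5, h02, h12] at this
    linear_combination this
  have M2 : M 2 = 0 := by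
    by_contra hM
    have c1 : e0 1 = 0 := by
      have : M 2 * e0 1 = 0 := by
        linear_combination (-1 / 3 : ℂ) * (u 1 0 1 - u 1 0 0)
      exact (mul_eq_zero.1 this).resolve_left hM
    have c2 : e0 3 = 0 := by
      have : M 2 * e0 3 = 0 := by
        linear_combination (1 / 3 : ℂ) * (v 1 0 1 - v 1 0 0)
      exact (mul_eq_zero.1 this).resolve_left hM
    exact hi.ne_zero 0 (vec0 h00 c1 h02 c2 h0)
  have d4 : dn 4 = 0 := by rw [hdn, M2, h0, h1]; ring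
  have L20 : L 2 0 = 0 := z (by rw [b6, d4])
  have d0 := hdn 0
  have d1 := hdn 1
  have d2 := hdn 2
  have d3 := hdn 3
  rw [M2, h00, h10] at d0
  rw [M2, h11] at d1
  rw [M2, h02, h12] at d2
  rw [M2, h13] at d3
  have w1 := u 1 0 0
  have w2 := u 1 1 0
  have w3 := v 1 0 0
  have w4 := v 1 1 0
  rw [L20, M2] at w1 w2 w3 w4
  have key : (4 * M 0) • e0 + (4 * M 1) • e1 + (L 0 0) • e3 = 0 := by
    funext j
    fin_cases j
    · show 4 * M 0 * e0 0 + 4 * M 1 * e1 0 + L 0 0 * e3 0 = 0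
      rw [h00, h10]
      linear_combination w2 - w1 - d0
    · show 4 * M 0 * e0 1 + 4 * M 1 * e1 1 + L 0 0 * e3 1 = 0
      rw [h11]
      linear_combination - w1 - d1
    · show 4 * M 0 * e0 2 + 4 * M 1 * e1 2 + L 0 0 * e3 2 = 0
      rw [h02, h12]
      linear_combination w3 - w4 - d2
    · show 4 * M 0 * e0 3 + 4 * M 1 * e1 3 + L 0 0 * e3 3 = 0
      rw [h13]
      linear_combination w3 - d3
    · show 4 * M 0 * e0 4 + 4 * M 1 * e1 4 + L 0 0 * e3 4 = 0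
      rw [h0, h1, h3]
      ring
  have k := Fintype.linearIndependent_iff.1 hi ![4 * M 0, 4 * M 1, L 0 0] (by
    rw [Fin.sum_univ_three]
    exact key)
  have k0 : 4 * M 0 = 0 := k 0
  have k1 : 4 * M 1 = 0 := k 1
  exact ⟨by linear_combination (1 / 4 : ℂ) * k0, by linear_combination (1 / 4 : ℂ) * k1, M2⟩

theorem PE.case2 (h : PE e0 e1 e2 e3 dn L M) (h1 : e1 4 = 0) (h3 : e3 4 = 0) (h0 : e0 4 ≠ 0)
    (h2 : e2 4 ≠ 0) (hl : ¬ (L 4 0 = 0 ∧ L 4 1 = 0 ∧ L 4 2 = 0)) (e4 : Fin 5 → ℂ)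
    (hdn : ∀ j, dn j = M 0 * e0 j + M 1 * e1 j + M 2 * e4 j)
    (h11 : e1 1 = 0) (h13 : e1 3 = 0) (hb : e3 1 ≠ 0) :
    3 * (e0 4 * e2 3 - e2 4 * e0 3) + e2 4 * e1 2 = 0 ∧
      - (e0 4 * e3 1) + 2 * (e0 4 * e2 3 - e2 4 * e0 3) + 2 * (e2 4 * e1 2) = 0 := by
  obtain ⟨n1, n2, -⟩ := h.nz h1 h3 hl
  have A := h.a1 h1 h3
  have c0 : L 4 0 = 0 := by
    have : L 4 0 * e3 1 = 0 := by linear_combination - A 1 0 0
    exact (mul_eq_zero.1 this).resolve_right hb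
  have c2 : L 4 2 = 0 := by
    have : L 4 2 * e3 1 = 0 := by linear_combination - A 1 0 1 + A 1 0 0
    exact (mul_eq_zero.1 this).resolve_right hb
  have c1 : L 4 1 ≠ 0 := fun hc => hl ⟨c0, hc, c2⟩
  have m0 : M 0 * e0 4 = - (L 4 1 * e3 1) := by
    linear_combination - A 1 1 0 + A 1 0 0 + A 0 1 0 + e3 0 * c0
  have m1 : M 1 * e0 4 = L 4 1 * e3 0 := by linear_combination - A 0 1 0
  have m2 : M 2 = 0 := by
    have : M 2 * e0 4 = 0 := by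
      linear_combination - A 0 1 1 + A 0 1 0 + e3 0 * c2
    exact (mul_eq_zero.1 this).resolve_right h0
  have d4 : dn 4 = - (L 4 1 * e3 1) := by
    rw [hdn, m2, h1]; linear_combination m0
  have d3 : dn 3 = M 0 * e0 3 := by
    rw [hdn, m2, h13]; ring
  have p0 : e2 4 * L 2 0 = - 3 * (L 4 1 * e3 1) := by
    have := h.q02 1 0 0
    rw [c0, h3, d4] at this
    linear_combination - this + 2 * m0
  have p1 : e2 4 * L 3 1 = L 4 1 * (e2 3 - 2 * e3 1) := by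
    have := h.q13 0 1 0
    rw [h3, h1, d4] at this
    linear_combination - this
  have p2 : L 3 0 = 0 := by
    have := h.q13 1 0 0
    rw [h3, h1, c0] at this
    have h4 : e2 4 * L 3 0 = 0 := by linear_combination - this
    exact (mul_eq_zero.1 h4).resolve_left h2
  have s1 := h.q023 1 0 0
  rw [n1, n2, p2, d3] at s1
  have s2 := h.q123 1 1 0
  have s3 := h.q123 1 0 0
  have s4 := h.q123 0 1 0
  rw [n1, n2] at s2 s3 s4
  rw [p2] at s2 s3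
  rw [d3] at s2 s3
  rw [h13] at s2 s3
  have hcb : L 4 1 * e3 1 ≠ 0 := mul_ne_zero c1 hb
  constructor
  · refine (mul_eq_zero.1 (?_ : (L 4 1 * e3 1) * _ = 0)).resolve_left hcb
    linear_combination (e0 4 * e2 4) * s1 + e0 4 * e2 3 * p0 - e2 4 * (3 * e0 3 - e1 2) * m0
  · refine (mul_eq_zero.1 (?_ : (L 4 1 * e3 1) * _ = 0)).resolve_left hcb
    linear_combination (e0 4 * e2 4) * (s2 - s3 - s4) - e0 4 * (e3 1 - e2 3) * p0 +
      e0 4 * e3 1 * p1 - e2 4 * (2 * e0 3 - 2 * e1 2) * m0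

private theorem li3 {e : Fin 5 → Fin 5 → ℂ} (hi : LinearIndependent ℂ e) {a b c : Fin 5}
    (h : Function.Injective (![a, b, c] : Fin 3 → Fin 5)) : LinearIndependent ℂ ![e a, e b, e c] := by
  have h1 := hi.comp _ h
  have h2 : e ∘ (![a, b, c] : Fin 3 → Fin 5) = ![e a, e b, e c] := by
    funext i; fin_cases i <;> rfl
  rwa [h2] at h1

private theorem swL (v w : Fin 5 → ℂ) : sw (v + w) = sw v + sw w := by
  funext i; fin_cases i <;> rfl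

private theorem swS (c : ℂ) (v : Fin 5 → ℂ) : sw (c • v) = c • sw v := by
  funext i; fin_cases i <;> rfl

private theorem swsw (v : Fin 5 → ℂ) : sw (sw v) = v := by
  funext i; fin_cases i <;> rfl

private noncomputable def swE : (Fin 5 → ℂ) ≃ₗ[ℂ] (Fin 5 → ℂ) where
  toFun := sw
  invFun := sw
  map_add' := swL
  map_smul' := swS
  left_inv := swsw
  right_inv := swsw

private theorem li3' {e : Fin 5 → Fin 5 → ℂ} (hi : LinearIndependent ℂ e) {a b c : Fin 5}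
    (h : Function.Injective (![a, b, c] : Fin 3 → Fin 5)) :
    LinearIndependent ℂ ![sw (e a), sw (e b), sw (e c)] := by
  have h1 := (li3 hi h).map' swE.toLinearMap (LinearMap.ker_eq_bot.2 swE.injective)
  have h2 : swE.toLinearMap ∘ ![e a, e b, e c] = ![sw (e a), sw (e b), sw (e c)] := by
    funext i; fin_cases i <;> rfl
  rwa [h2] at h1

/-- exchange of the indices 1 and 2 -/
def tr (j : Fin 5) : Fin 5 := (![0, 2, 1, 3, 4] : Fin 5 → Fin 5) j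

theorem alg3 {e : Fin 5 → Fin 5 → ℂ} (hi : LinearIndependent ℂ e) (he1 : e 1 4 = 0)
    (he3 : e 3 4 = 0) {L : Fin 5 → Fin 5 → ℂ} {N N' : Fin 5 → ℂ}
    (hN : ¬ (N 2 = 0 ∧ N 3 = 0 ∧ N 4 = 0)) (hN' : ¬ (N' 0 = 0 ∧ N' 1 = 0 ∧ N' 4 = 0))
    (hL : ∃ i, L 4 i ≠ 0)
    (h : PE (e 0) (e 1) (e 2) (e 3) (fun j => N' 0 * e 0 j + N' 1 * e 1 j + N' 4 * e 4 j)
      (fun j => ![L j 0, L j 1, L j 4]) ![N' 0, N' 1, N' 4])
    (h' : PE (sw (e 2)) (sw (e 3)) (sw (e 0)) (sw (e 1))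
      (sw (fun j => - (N 2 * e 2 j + N 3 * e 3 j + N 4 * e 4 j)))
      (fun j => ![L (tr j) 2, L (tr j) 3, L (tr j) 4]) ![- N 2, - N 3, - N 4]) : False := by
  have hM : ¬ ((![N' 0, N' 1, N' 4] : Fin 3 → ℂ) 0 = 0 ∧ (![N' 0, N' 1, N' 4] : Fin 3 → ℂ) 1 = 0 ∧
      (![N' 0, N' 1, N' 4] : Fin 3 → ℂ) 2 = 0) := hN'
  have hM' : ¬ ((![- N 2, - N 3, - N 4] : Fin 3 → ℂ) 0 = 0 ∧
      (![- N 2, - N 3, - N 4] : Fin 3 → ℂ) 1 = 0 ∧
      (![- N 2, - N 3, - N 4] : Fin 3 → ℂ) 2 = 0) :=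
    fun hh => hN ⟨neg_eq_zero.1 hh.1, neg_eq_zero.1 hh.2.1, neg_eq_zero.1 hh.2.2⟩
  have hne : ∀ i, e i ≠ 0 := fun i => hi.ne_zero i
  -- `l ≡ 0` on `Π` iff `e 0 4 = 0`
  have z1 : (L 4 0 = 0 ∧ L 4 1 = 0 ∧ L 4 4 = 0) → e 0 4 = 0 := fun hl => h.z he1 he3 hl hM
  have z1' : (L 4 2 = 0 ∧ L 4 3 = 0 ∧ L 4 4 = 0) → e 2 4 = 0 := fun hl => h'.z he3 he1 hl hM'
  have n1 : ¬ (L 4 0 = 0 ∧ L 4 1 = 0 ∧ L 4 4 = 0) → e 3 2 = 0 ∧ e 3 3 = 0 ∧ e 0 4 ≠ 0 := by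
    intro hl
    obtain ⟨h1, h2, h3⟩ := h.nz he1 he3 hl
    refine ⟨h1, h2, fun h4 => ?_⟩
    obtain ⟨h5, h6⟩ := h3 h4
    exact hne 3 (vec0 h5 h6 h1 h2 he3)
  have n1' : ¬ (L 4 2 = 0 ∧ L 4 3 = 0 ∧ L 4 4 = 0) → e 1 1 = 0 ∧ e 1 3 = 0 ∧ e 2 4 ≠ 0 := by
    intro hl
    obtain ⟨h1, h2, h3⟩ := h'.nz he3 he1 hl
    refine ⟨h1, h2, fun h4 => ?_⟩
    obtain ⟨h5, h6⟩ := h3 h4
    exact hne 1 (vec0 h5 h1 h6 h2 he1)
  by_cases hl : L 4 0 = 0 ∧ L 4 1 = 0 ∧ L 4 4 = 0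
  · by_cases hl' : L 4 2 = 0 ∧ L 4 3 = 0 ∧ L 4 4 = 0
    · obtain ⟨i, h1⟩ := hL
      apply h1
      fin_cases i
      · exact hl.1
      · exact hl.2.1
      · exact hl'.1
      · exact hl'.2.1
      · exact hl.2.2
    · -- (i)
      have h04 := z1 hl
      obtain ⟨-, -, h24⟩ := n1' hl'
      obtain ⟨m1, m2, m3, m4, m5, m6⟩ := h'.mir he3 he1 h04 hl'
      exact hM (h.case1 he1 he3 h04 h24 hl (e 4) (fun j => rfl) m1 m2 m3 m4 m5 m6
        (li3 hi (by decide)))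
  · obtain ⟨h32, h33, h04⟩ := n1 hl
    by_cases hl' : L 4 2 = 0 ∧ L 4 3 = 0 ∧ L 4 4 = 0
    · -- (ii)
      have h24 := z1' hl'
      obtain ⟨m1, m2, m3, m4, m5, m6⟩ := h.mir he1 he3 h24 hl
      refine hM' (h'.case1 he3 he1 h24 h04 hl' (sw (e 4)) (fun j => ?_) m1 m2 m3 m4 m5 m6
        (li3' hi (by decide)))
      fin_cases j <;> simp [sw] <;> ring
    · -- (iii)
      obtain ⟨h11, h13, h24⟩ := n1' hl'
      by_cases hb : e 3 1 = 0
      · by_cases hg : e 1 2 = 0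
        · -- `e 1` and `e 3` are proportional
          have h1 := (LinearIndependent.pair_iff.1 (by
            have h2 := hi.comp (![1, 3] : Fin 2 → Fin 5) (by decide)
            have h3 : e ∘ (![1, 3] : Fin 2 → Fin 5) = ![e 1, e 3] := by
              funext i; fin_cases i <;> rfl
            rwa [h3] at h2)) (e 3 0) (- e 1 0) (by
              funext i
              fin_cases i
              · simp; ring
              · simp [h11, hb]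
              · simp [hg, h32]
              · simp [h13, h33]
              · simp [he1, he3])
          exact hne 3 (vec0 h1.1 hb h32 h33 he3)
        · obtain ⟨k1, k2⟩ := h'.case2 he3 he1 h24 h04 hl' (sw (e 4)) (fun j => by
            fin_cases j <;> simp [sw] <;> ring) h32 h33 hg
          have k3 : 3 * (e 2 4 * e 0 3 - e 0 4 * e 2 3) + e 0 4 * e 3 1 = 0 := k1
          have k4 : - (e 2 4 * e 1 2) + 2 * (e 2 4 * e 0 3 - e 0 4 * e 2 3) +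
            2 * (e 0 4 * e 3 1) = 0 := k2
          rw [hb] at k3 k4
          have k5 : e 2 4 * e 1 2 = 0 := by linear_combination (2 / 3 : ℂ) * k3 - k4
          rcases mul_eq_zero.1 k5 with k6 | k6
          · exact h24 k6
          · exact hg k6
      · obtain ⟨k1, k2⟩ := h.case2 he1 he3 h04 h24 hl (e 4) (fun j => rfl) h11 h13 hb
        have k3 : 3 * (e 0 4 * e 2 3 - e 2 4 * e 0 3) + e 2 4 * e 1 2 = 0 := k1
        have k4 : - (e 0 4 * e 3 1) + 2 * (e 0 4 * e 2 3 - e 2 4 * e 0 3) +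
            2 * (e 2 4 * e 1 2) = 0 := k2
        by_cases hg : e 1 2 = 0
        · rw [hg] at k3 k4
          have k5 : e 0 4 * e 3 1 = 0 := by linear_combination (2 / 3 : ℂ) * k3 - k4
          rcases mul_eq_zero.1 k5 with k6 | k6
          · exact h04 k6
          · exact hb k6
        · obtain ⟨k1', k2'⟩ := h'.case2 he3 he1 h24 h04 hl' (sw (e 4)) (fun j => by
            fin_cases j <;> simp [sw] <;> ring) h32 h33 hg
          have k3' : 3 * (e 2 4 * e 0 3 - e 0 4 * e 2 3) + e 0 4 * e 3 1 = 0 := k1'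
          -- `B = 3 Z`, `G = - 3 Z`, `- B + 2 Z + 2 G = - 7 Z = 0`
          have k5 : e 0 4 * e 3 1 = 0 := by
            linear_combination k3' - (3 / 7 : ℂ) * (k4 - 2 * k3 + k3')
          rcases mul_eq_zero.1 k5 with k6 | k6
          · exact h04 k6
          · exact hb k6

end Pool.Agent.Helper18.XE
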