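import Pool.Agent.Helper18.LB.CFin

/-! Exclusion of the forms (X3), (X4) of case (c): explicit forms in adapted coordinates `y_0, .., y_4` of `ℂ⁵`
(`dy_0, .., dy_3` are the four covectors of `i_v θ`, `∂_4` spans `WW σ`), and the equations of `dθ = 0` on the planes
`Π = {x_2 = x_3 = 0}`, `Π' = {x_0 = x_1 = 0}`. -/

set_option autoImplicit false

namespace Pool.Agent.Helper18.XE

open MvPolynomial
open scoped BigOperators
open Pool.Agent.Helper71.FC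
open Pool.Agent.Helper71.FL (w12 pf ct Dec Closed dd)
open Pool.Agent.Helper18.LB

/-- coefficients of `σ`, type (X3) -/
noncomputable def sg3 (x : Fin 4 → Pn 5) : F1 5 := ![x 0 * x 2, x 1 * x 2, x 0 * x 3, x 1 * x 3, 0]

/-- the skew matrix of wedge products, type (X3) (rows and columns `a = γ02, b = γ12, c = γ03, d = γ13, v`) -/
noncomputable def k3 (x : Fin 4 → Pn 5) (n n' : Pn 5) : F2 5 :=
  ![![0, - (n * x 2 ^ 2), n' * x 0 ^ 2, n' * x 0 * x 1 - n * x 2 * x 3, 0],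
    ![n * x 2 ^ 2, 0, n' * x 0 * x 1 + n * x 2 * x 3, n' * x 1 ^ 2, 0],
    ![- (n' * x 0 ^ 2), - (n' * x 0 * x 1 + n * x 2 * x 3), 0, - (n * x 3 ^ 2), 0],
    ![- (n' * x 0 * x 1 - n * x 2 * x 3), - (n' * x 1 ^ 2), n * x 3 ^ 2, 0, 0],
    ![0, 0, 0, 0, 0]]

/-- explicit form, type (X3) -/
noncomputable def th3 (x : Fin 4 → Pn 5) (l : Fin 5 → Pn 5) (n n' : Pn 5) : F2 5 := fun i j =>
  l i * sg3 x j - l j * sg3 x i + k3 x n n' i j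

/-- coefficients of `σ`, type (X4) -/
noncomputable def sg4 (x : Fin 4 → Pn 5) : F1 5 :=
  ![x 0 ^ 2, x 0 * x 1, x 1 ^ 2, x 1 * x 2 - x 0 * x 3, 0]

/-- the skew matrix of wedge products, type (X4) (rows and columns `a = γ02, b = γ03, c = γ13, d = γ23, v`) -/
noncomputable def k4 (x : Fin 4 → Pn 5) (n h : Pn 5) : F2 5 :=
  ![![0, - (x 0 * (x 2 * n + h * x 0)), - (n * (x 0 * x 3 + x 1 * x 2) + h * x 0 * x 1),
      - (x 2 * (x 2 * n + h * x 0)), 0],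
    ![x 0 * (x 2 * n + h * x 0), 0, - (x 1 * x 3 * n), - (x 3 * (x 2 * n + h * x 0)), 0],
    ![n * (x 0 * x 3 + x 1 * x 2) + h * x 0 * x 1, x 1 * x 3 * n, 0,
      - (x 3 * (x 3 * n + h * x 1)), 0],
    ![x 2 * (x 2 * n + h * x 0), x 3 * (x 2 * n + h * x 0), x 3 * (x 3 * n + h * x 1), 0, 0],
    ![0, 0, 0, 0, 0]]

/-- explicit form, type (X4) -/
noncomputable def th4 (x : Fin 4 → Pn 5) (l : Fin 5 → Pn 5) (n h : Pn 5) : F2 5 := fun i j =>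
  l i * sg4 x j - l j * sg4 x i + k4 x n h i j

/-- the equations of `dθ = 0` on a plane, type (X3): `e_i = dx_i`, `dn = dn'`, `Λ_j = λ_j`, `m = n'` on the plane with
coordinates `s = x_0, t = x_1, r = x_4` -/
structure PE (e0 e1 e2 e3 dn : Fin 5 → ℂ) (L : Fin 5 → Fin 3 → ℂ) (M : Fin 3 → ℂ) : Prop where
  q01 : ∀ s t r : ℂ, e2 4 * ((L 0 0 * s + L 0 1 * t + L 0 2 * r) * t -
      (L 1 0 * s + L 1 1 * t + L 1 2 * r) * s) =
    (L 4 0 * s + L 4 1 * t + L 4 2 * r) * (e2 0 * t - e2 1 * s)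
  q23 : ∀ s t r : ℂ, e3 4 * ((L 2 0 * s + L 2 1 * t + L 2 2 * r) * t -
      (L 3 0 * s + L 3 1 * t + L 3 2 * r) * s) =
    (L 4 0 * s + L 4 1 * t + L 4 2 * r) * (e3 2 * t - e3 3 * s)
  q02 : ∀ s t r : ℂ, (L 4 0 * s + L 4 1 * t + L 4 2 * r) * (e2 2 - e3 0) -
      e2 4 * (L 2 0 * s + L 2 1 * t + L 2 2 * r) + e3 4 * (L 0 0 * s + L 0 1 * t + L 0 2 * r) +
      dn 4 * s + 2 * (M 0 * s + M 1 * t + M 2 * r) * e0 4 = 0
  q03 : ∀ s t r : ℂ, (L 4 0 * s + L 4 1 * t + L 4 2 * r) * (e2 3 * s - e3 0 * t) -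
      e2 4 * (L 3 0 * s + L 3 1 * t + L 3 2 * r) * s +
      e3 4 * (L 0 0 * s + L 0 1 * t + L 0 2 * r) * t + dn 4 * s * t +
      (M 0 * s + M 1 * t + M 2 * r) * (e0 4 * t + e1 4 * s) = 0
  q12 : ∀ s t r : ℂ, (L 4 0 * s + L 4 1 * t + L 4 2 * r) * (e2 2 * t - e3 1 * s) -
      e2 4 * (L 2 0 * s + L 2 1 * t + L 2 2 * r) * t +
      e3 4 * (L 1 0 * s + L 1 1 * t + L 1 2 * r) * s + dn 4 * s * t +
      (M 0 * s + M 1 * t + M 2 * r) * (e1 4 * s + e0 4 * t) = 0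
  q13 : ∀ s t r : ℂ, (L 4 0 * s + L 4 1 * t + L 4 2 * r) * (e2 3 - e3 1) -
      e2 4 * (L 3 0 * s + L 3 1 * t + L 3 2 * r) + e3 4 * (L 1 0 * s + L 1 1 * t + L 1 2 * r) +
      dn 4 * t + 2 * (M 0 * s + M 1 * t + M 2 * r) * e1 4 = 0
  q012 : ∀ s t r : ℂ, - ((L 0 0 * s + L 0 1 * t + L 0 2 * r) * (e3 1 * s - e2 2 * t) -
        (L 1 0 * s + L 1 1 * t + L 1 2 * r) * (s * (e3 0 - e2 2)) +
        (L 2 0 * s + L 2 1 * t + L 2 2 * r) * (e2 0 * t - e2 1 * s)) +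
      (dn 0 * s * t - dn 1 * s ^ 2) +
      (M 0 * s + M 1 * t + M 2 * r) * (s * (e1 0 - 2 * e0 1) + t * e0 0) = 0
  q023 : ∀ s t r : ℂ, - ((L 0 0 * s + L 0 1 * t + L 0 2 * r) * (e3 2 * t - e3 3 * s) -
        (L 2 0 * s + L 2 1 * t + L 2 2 * r) * (e3 0 * t - e2 3 * s) +
        (L 3 0 * s + L 3 1 * t + L 3 2 * r) * (s * (e3 0 - e2 2))) +
      (dn 3 * s ^ 2 - dn 2 * s * t) +
      (M 0 * s + M 1 * t + M 2 * r) * (s * (2 * e0 3 - e1 2) - t * e0 2) = 0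
  q123 : ∀ s t r : ℂ, - ((L 1 0 * s + L 1 1 * t + L 1 2 * r) * (e3 2 * t - e3 3 * s) -
        (L 2 0 * s + L 2 1 * t + L 2 2 * r) * (t * (e3 1 - e2 3)) +
        (L 3 0 * s + L 3 1 * t + L 3 2 * r) * (e3 1 * s - e2 2 * t)) +
      (dn 3 * s * t - dn 2 * t ^ 2) +
      (M 0 * s + M 1 * t + M 2 * r) * (s * e1 3 - t * (2 * e1 2 - e0 3)) = 0

/-- exchange of the components 1 and 2 -/
def sw (v : Fin 5 → ℂ) : Fin 5 → ℂ := ![v 0, v 2, v 1, v 3, v 4]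

end Pool.Agent.Helper18.XE
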