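import Pool.Agent.Helper18.XE.Form
import Pool.Agent.Helper18.XE.Alg3

/-! XE-4: the equations of `d (th3 x l n n') = 0` on `Π` and `Π'`, and the exclusion of (X3).
`x i = lf (e i)` (`lf_of_hom`), `pderiv j (lf a) = C (a j)`.  `eq3`: let `y` be a point with `eval y (x 2) = eval y (x 3) = 0`, `s = eval y (x 0)`, `t = eval y (x 1)`,
`Λ_j = eval y (l j)`, `m = eval y n'`.  Apply `eval y` to the components `(0,1,4), (2,3,4), (0,2,4), (0,3,4), (1,2,4), (1,3,4), (0,1,2), (0,2,3), (1,2,3)` of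
`Closed (th3 x l n n')`; up to sign these are exactly the nine equations (checked by machine; `(0,2,4)` carries a factor `s`, `(1,3,4)` a factor `t`).
The structure `PE` follows by taking `y = s E_0 + t E_1 + r E_4`, `E` the dual basis of `e` (`e 4` completes `e 0, .., e 3` to a basis), `L j i = ` value of `l j` at `E_i`; the factors `s`, `t` are
cancelled because the other factor is linear in `(s, t, r)`.  `Π'`: the same with the components `(0,2,4), (1,3,4), ..` (exchange 1 and 2), or by direct evaluation.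
`no3`: choose `e 4`, expand `n = ∑ N_i x_i`, `n' = ∑ N'_i x_i` (`x_4 = lf (e 4)`); `th3_shift` with `c = (N 0, N 1, N' 2, N' 3)`: then `N 0 = N 1 = N' 2 = N' 3 = 0`; the new
`l 4` is the old one; `n0`, `n0'` give `hN`, `hN'`; `alg3`. -/

set_option autoImplicit false

namespace Pool.Agent.Helper18.XE

open MvPolynomial
open scoped BigOperators
open Pool.Agent.Helper71.FC
open Pool.Agent.Helper71.FL (w12 pf ct Dec Closed dd)
open Pool.Agent.Helper18.LB
open Pool.Agent.Helper93 (lsub)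

theorem pderiv_lf {n : ℕ} (a : Fin n → ℂ) (j : Fin n) : pderiv j (lf a) = C (a j) := by
  classical
  unfold lf
  rw [map_sum, Finset.sum_eq_single j]
  · rw [Derivation.leibniz, pderiv_X_self, pderiv_C, smul_zero, add_zero, smul_eq_mul, mul_one]
  · intro i _ hij
    rw [Derivation.leibniz, pderiv_X_of_ne hij, pderiv_C, smul_zero, smul_zero, add_zero]
  · intro h
    exact absurd (Finset.mem_univ j) h

/-- the nine equations at a point of `Π` (`e0 .. e3` gradients of `x 0 .. x 3`, `dn` gradient of `n'`) -/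
theorem eq3 {e : Fin 4 → Fin 5 → ℂ} {lam : Fin 5 → Fin 5 → ℂ} {nu nu' : Fin 5 → ℂ}
    (hcl : Closed (th3 (fun a => lf (e a)) (fun j => lf (lam j)) (lf nu) (lf nu')))
    (y : Fin 5 → ℂ) {s t m : ℂ} {Λ : Fin 5 → ℂ} (h0 : eval y (lf (e 0)) = s)
    (h1 : eval y (lf (e 1)) = t) (h2 : eval y (lf (e 2)) = 0) (h3 : eval y (lf (e 3)) = 0)
    (hm : eval y (lf nu') = m) (hΛ : ∀ j, eval y (lf (lam j)) = Λ j) :
    e 2 4 * (Λ 0 * t - Λ 1 * s) = Λ 4 * (e 2 0 * t - e 2 1 * s) ∧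
    e 3 4 * (Λ 2 * t - Λ 3 * s) = Λ 4 * (e 3 2 * t - e 3 3 * s) ∧
    s * (Λ 4 * (e 2 2 - e 3 0) - e 2 4 * Λ 2 + e 3 4 * Λ 0 + nu' 4 * s + 2 * m * e 0 4) = 0 ∧
    Λ 4 * (e 2 3 * s - e 3 0 * t) - e 2 4 * Λ 3 * s + e 3 4 * Λ 0 * t + nu' 4 * s * t +
      m * (e 0 4 * t + e 1 4 * s) = 0 ∧
    Λ 4 * (e 2 2 * t - e 3 1 * s) - e 2 4 * Λ 2 * t + e 3 4 * Λ 1 * s + nu' 4 * s * t +
      m * (e 1 4 * s + e 0 4 * t) = 0 ∧
    t * (Λ 4 * (e 2 3 - e 3 1) - e 2 4 * Λ 3 + e 3 4 * Λ 1 + nu' 4 * t + 2 * m * e 1 4) = 0 ∧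
    - (Λ 0 * (e 3 1 * s - e 2 2 * t) - Λ 1 * (s * (e 3 0 - e 2 2)) +
        Λ 2 * (e 2 0 * t - e 2 1 * s)) + (nu' 0 * s * t - nu' 1 * s ^ 2) +
      m * (s * (e 1 0 - 2 * e 0 1) + t * e 0 0) = 0 ∧
    - (Λ 0 * (e 3 2 * t - e 3 3 * s) - Λ 2 * (e 3 0 * t - e 2 3 * s) +
        Λ 3 * (s * (e 3 0 - e 2 2))) + (nu' 3 * s ^ 2 - nu' 2 * s * t) +
      m * (s * (2 * e 0 3 - e 1 2) - t * e 0 2) = 0 ∧
    - (Λ 1 * (e 3 2 * t - e 3 3 * s) - Λ 2 * (t * (e 3 1 - e 2 3)) +
        Λ 3 * (e 3 1 * s - e 2 2 * t)) + (nu' 3 * s * t - nu' 2 * t ^ 2) +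
      m * (s * e 1 3 - t * (2 * e 1 2 - e 0 3)) = 0 := by
  have key : ∀ i j k : Fin 5, eval y (pderiv i (th3 (fun a => lf (e a)) (fun j => lf (lam j))
      (lf nu) (lf nu') j k)) + eval y (pderiv j (th3 (fun a => lf (e a)) (fun j => lf (lam j))
      (lf nu) (lf nu') k i)) + eval y (pderiv k (th3 (fun a => lf (e a)) (fun j => lf (lam j))
      (lf nu) (lf nu') i j)) = 0 := by
    intro i j k
    have h := congrArg (eval y) (hcl i j k)
    rw [map_add, map_add, map_zero] at h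
    exact h
  refine ⟨?_, ?_, ?_, ?_, ?_, ?_, ?_, ?_, ?_⟩
  · have h := key 0 1 4
    simp [th3, sg3, k3, Derivation.leibniz, pderiv_lf, h0, h1, h2, h3, hm, hΛ, Derivation.leibniz_pow] at h
    linear_combination h
  · have h := key 2 3 4
    simp [th3, sg3, k3, Derivation.leibniz, pderiv_lf, h0, h1, h2, h3, hm, hΛ, Derivation.leibniz_pow] at h
    linear_combination h
  · have h := key 0 2 4
    simp [th3, sg3, k3, Derivation.leibniz, pderiv_lf, h0, h1, h2, h3, hm, hΛ, Derivation.leibniz_pow] at h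
    linear_combination h
  · have h := key 0 3 4
    simp [th3, sg3, k3, Derivation.leibniz, pderiv_lf, h0, h1, h2, h3, hm, hΛ, Derivation.leibniz_pow] at h
    linear_combination h
  · have h := key 1 2 4
    simp [th3, sg3, k3, Derivation.leibniz, pderiv_lf, h0, h1, h2, h3, hm, hΛ, Derivation.leibniz_pow] at h
    linear_combination h
  · have h := key 1 3 4
    simp [th3, sg3, k3, Derivation.leibniz, pderiv_lf, h0, h1, h2, h3, hm, hΛ, Derivation.leibniz_pow] at h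
    linear_combination h
  · have h := key 0 1 2
    simp [th3, sg3, k3, Derivation.leibniz, pderiv_lf, h0, h1, h2, h3, hm, hΛ, Derivation.leibniz_pow] at h
    linear_combination h
  · have h := key 0 2 3
    simp [th3, sg3, k3, Derivation.leibniz, pderiv_lf, h0, h1, h2, h3, hm, hΛ, Derivation.leibniz_pow] at h
    linear_combination h
  · have h := key 1 2 3
    simp [th3, sg3, k3, Derivation.leibniz, pderiv_lf, h0, h1, h2, h3, hm, hΛ, Derivation.leibniz_pow] at h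
    linear_combination h

/-- the mirror image: exchange of `(x 0, x 1)` and `(x 2, x 3)`, of the indices 1 and 2, of `n'` and `- n` -/
theorem th3_mirror (x : Fin 4 → Pn 5) (l : Fin 5 → Pn 5) (n n' : Pn 5) (i j : Fin 5) :
    th3 x l n n' i j = th3 ![x 2, x 3, x 0, x 1] (fun k => l (tr k)) (- n') (- n) (tr i) (tr j) := by
  fin_cases i <;> fin_cases j <;> simp [th3, sg3, k3, tr] <;> first | ring1 | (left; ring1)

/-- `Closed` for the mirror image in the exchanged coordinates -/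
theorem closed_mirror {e : Fin 4 → Fin 5 → ℂ} {lam : Fin 5 → Fin 5 → ℂ} {nu nu' : Fin 5 → ℂ}
    (hcl : Closed (th3 (fun a => lf (e a)) (fun j => lf (lam j)) (lf nu) (lf nu'))) :
    Closed (th3 (fun a => lf (sw (e (![2, 3, 0, 1] a)))) (fun j => lf (sw (lam (tr j))))
      (lf (fun j => - sw nu' j)) (lf (fun j => - sw nu j))) := by
  have htr : ∀ j : Fin 5, tr (tr j) = j := by decide
  have hinj : Function.Injective tr := fun a b hab => by rw [← htr a, ← htr b, hab]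
  have hlf : ∀ a : Fin 5 → ℂ, rename tr (lf a) = lf (sw a) := by
    intro a
    unfold lf
    simp only [Fin.sum_univ_five, map_add, map_mul, rename_C, rename_X]
    simp only [tr, sw]
    simp
    ring
  have hneg : ∀ a : Fin 5 → ℂ, lf (fun j => - a j) = - lf a := by
    intro a
    unfold lf
    simp only [C_neg, neg_mul, Finset.sum_neg_distrib]
  have hth : ∀ i j, th3 (fun a => lf (sw (e (![2, 3, 0, 1] a)))) (fun j => lf (sw (lam (tr j))))
      (lf (fun j => - sw nu' j)) (lf (fun j => - sw nu j)) i j =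
      rename tr (th3 (fun a => lf (e a)) (fun j => lf (lam j)) (lf nu) (lf nu') (tr i) (tr j)) := by
    intro i j
    rw [hneg, hneg, ← hlf nu, ← hlf nu']
    simp only [← hlf]
    fin_cases i <;> fin_cases j <;> simp [th3, sg3, k3, tr] <;> first | ring1 | (left; ring1)
  intro i j k
  have h1 := hcl (tr i) (tr j) (tr k)
  have h2 : ∀ (i : Fin 5) (p : Pn 5), pderiv i (rename tr p) = rename tr (pderiv (tr i) p) := by
    intro i p
    have h3 := pderiv_rename hinj (x := tr i) (p := p)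
    rw [htr] at h3
    exact h3
  rw [hth, hth, hth, h2, h2, h2, ← map_add, ← map_add, h1, map_zero]

private theorem exists_co {e : Fin 5 → Fin 5 → ℂ} (hi : LinearIndependent ℂ e) (v : Fin 5 → ℂ) :
    ∃ c : Fin 5 → ℂ, ∀ k, v k = ∑ i, c i * e i k := by
  have hu : IsUnit (Matrix.of e) := by
    rw [← Matrix.linearIndependent_rows_iff_isUnit]
    exact hi
  rw [Matrix.isUnit_iff_isUnit_det] at hu
  refine ⟨Matrix.vecMul v (Matrix.of e)⁻¹, fun k => ?_⟩
  have h1 : Matrix.vecMul (Matrix.vecMul v (Matrix.of e)⁻¹) (Matrix.of e) = v := by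
    rw [Matrix.vecMul_vecMul, Matrix.nonsing_inv_mul _ hu, Matrix.vecMul_one]
  have h2 := congrFun h1 k
  rw [← h2]
  rfl

private theorem exists_pt {e : Fin 5 → Fin 5 → ℂ} (hi : LinearIndependent ℂ e) (v : Fin 5 → ℂ) :
    ∃ y : Fin 5 → ℂ, ∀ i, eval y (lf (e i)) = v i := by
  have hu : IsUnit (Matrix.of e) := by
    rw [← Matrix.linearIndependent_rows_iff_isUnit]
    exact hi
  rw [Matrix.isUnit_iff_isUnit_det] at hu
  refine ⟨Matrix.mulVec (Matrix.of e)⁻¹ v, fun i => ?_⟩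
  have h1 : Matrix.mulVec (Matrix.of e) (Matrix.mulVec (Matrix.of e)⁻¹ v) = v := by
    rw [Matrix.mulVec_mulVec, Matrix.mul_nonsing_inv _ hu, Matrix.one_mulVec]
  have h2 := congrFun h1 i
  unfold lf
  rw [map_sum]
  simp only [map_mul, eval_C, eval_X]
  exact h2

private theorem lf_co {e : Fin 5 → Fin 5 → ℂ} {a c : Fin 5 → ℂ}
    (ha : ∀ k, a k = ∑ i, c i * e i k) : lf a = ∑ i, C (c i) * lf (e i) := by
  unfold lf
  simp only [ha, map_sum, Finset.sum_mul, Finset.mul_sum]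
  rw [Finset.sum_comm]
  refine Finset.sum_congr rfl fun i _ => Finset.sum_congr rfl fun k _ => ?_
  rw [C_mul, mul_assoc]

private theorem eval_lf_co {e : Fin 5 → Fin 5 → ℂ} {y v : Fin 5 → ℂ}
    (hy : ∀ i, eval y (lf (e i)) = v i) {a c : Fin 5 → ℂ} (ha : ∀ k, a k = ∑ i, c i * e i k) :
    eval y (lf a) = ∑ i, c i * v i := by
  have h1 : lf a = ∑ i, C (c i) * lf (e i) := by
    unfold lf
    simp only [ha, map_sum, Finset.sum_mul, Finset.mul_sum]
    rw [Finset.sum_comm]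
    refine Finset.sum_congr rfl fun i _ => Finset.sum_congr rfl fun k _ => ?_
    rw [C_mul, mul_assoc]
  rw [h1, map_sum]
  simp only [map_mul, eval_C, hy]

/-- the structure `PE` from `Closed` -/
private theorem PE_of {e : Fin 5 → Fin 5 → ℂ} (hi : LinearIndependent ℂ e)
    {lam : Fin 5 → Fin 5 → ℂ} {nu nu' : Fin 5 → ℂ}
    (hcl : Closed (th3 (fun a : Fin 4 => lf (e a.castSucc)) (fun j => lf (lam j)) (lf nu) (lf nu')))
    {L : Fin 5 → Fin 5 → ℂ} (hL : ∀ j k, lam j k = ∑ i, L j i * e i k) {m0 m1 m2 : ℂ}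
    (hM : ∀ k, nu' k = m0 * e 0 k + m1 * e 1 k + m2 * e 4 k) :
    PE (e 0) (e 1) (e 2) (e 3) nu' (fun j => ![L j 0, L j 1, L j 4]) ![m0, m1, m2] := by
  have key : ∀ s t r : ℂ, ∃ y : Fin 5 → ℂ, eval y (lf (e 0)) = s ∧ eval y (lf (e 1)) = t ∧
      eval y (lf (e 2)) = 0 ∧ eval y (lf (e 3)) = 0 ∧
      eval y (lf nu') = m0 * s + m1 * t + m2 * r ∧
      ∀ j, eval y (lf (lam j)) = L j 0 * s + L j 1 * t + L j 4 * r := by
    intro s t r
    obtain ⟨y, hy⟩ := exists_pt hi ![s, t, 0, 0, r]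
    refine ⟨y, hy 0, hy 1, hy 2, hy 3, ?_, fun j => ?_⟩
    · rw [eval_lf_co hy (a := nu') (c := ![m0, m1, 0, 0, m2]) (by
        intro k
        rw [hM k, Fin.sum_univ_five]
        simp)]
      rw [Fin.sum_univ_five]
      simp
    · rw [eval_lf_co hy (hL j), Fin.sum_univ_five]
      simp
  choose Y y0 y1 y2 y3 ym yl using key
  have main := fun s t r : ℂ => eq3 (e := fun a : Fin 4 => e a.castSucc) hcl (Y s t r)
    (y0 s t r) (y1 s t r) (y2 s t r) (y3 s t r) (ym s t r) (yl s t r)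
  constructor
  · intro s t r
    exact (main s t r).1
  · intro s t r
    exact (main s t r).2.1
  · intro s t r
    have a : ∀ s t r : ℂ, s * ((L 4 0 * s + L 4 1 * t + L 4 4 * r) * (e 2 2 - e 3 0) -
        e 2 4 * (L 2 0 * s + L 2 1 * t + L 2 4 * r) + e 3 4 * (L 0 0 * s + L 0 1 * t + L 0 4 * r) +
        nu' 4 * s + 2 * (m0 * s + m1 * t + m2 * r) * e 0 4) = 0 := fun s t r => (main s t r).2.2.1
    have a1 := a 1 0 0
    have a2 := a 1 1 0
    have a3 := a 1 0 1
    change (L 4 0 * s + L 4 1 * t + L 4 4 * r) * (e 2 2 - e 3 0) -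
        e 2 4 * (L 2 0 * s + L 2 1 * t + L 2 4 * r) + e 3 4 * (L 0 0 * s + L 0 1 * t + L 0 4 * r) +
        nu' 4 * s + 2 * (m0 * s + m1 * t + m2 * r) * e 0 4 = 0
    linear_combination (s - t - r) * a1 + t * a2 + r * a3
  · intro s t r
    exact (main s t r).2.2.2.1
  · intro s t r
    exact (main s t r).2.2.2.2.1
  · intro s t r
    have a : ∀ s t r : ℂ, t * ((L 4 0 * s + L 4 1 * t + L 4 4 * r) * (e 2 3 - e 3 1) -
        e 2 4 * (L 3 0 * s + L 3 1 * t + L 3 4 * r) + e 3 4 * (L 1 0 * s + L 1 1 * t + L 1 4 * r) +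
        nu' 4 * t + 2 * (m0 * s + m1 * t + m2 * r) * e 1 4) = 0 :=
      fun s t r => (main s t r).2.2.2.2.2.1
    have a1 := a 0 1 0
    have a2 := a 1 1 0
    have a3 := a 0 1 1
    change (L 4 0 * s + L 4 1 * t + L 4 4 * r) * (e 2 3 - e 3 1) -
        e 2 4 * (L 3 0 * s + L 3 1 * t + L 3 4 * r) + e 3 4 * (L 1 0 * s + L 1 1 * t + L 1 4 * r) +
        nu' 4 * t + 2 * (m0 * s + m1 * t + m2 * r) * e 1 4 = 0
    linear_combination (t - s - r) * a1 + s * a2 + r * a3
  · intro s t r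
    exact (main s t r).2.2.2.2.2.2.1
  · intro s t r
    exact (main s t r).2.2.2.2.2.2.2.1
  · intro s t r
    exact (main s t r).2.2.2.2.2.2.2.2

theorem no3 {x : Fin 4 → Pn 5} {l : Fin 5 → Pn 5} {n n' : Pn 5} (h : Dat3 x l n n')
    (hcl : Closed (th3 x l n n')) : False := by
  classical
  have hx' : ∀ a, ∃ e, x a = lf e := fun a => lf_of_hom (h.hx a)
  choose e4 he4 using hx'
  obtain rfl : x = fun a => lf (e4 a) := funext he4
  have hi4 : LinearIndependent ℂ e4 := by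
    let φ : (Fin 5 → ℂ) →ₗ[ℂ] Pn 5 :=
      { toFun := fun a => lf a
        map_add' := fun a b => by
          unfold lf
          simp only [Pi.add_apply, C_add, add_mul, Finset.sum_add_distrib]
        map_smul' := fun c a => by
          unfold lf
          simp only [Pi.smul_apply, smul_eq_mul, C_mul, RingHom.id_apply, smul_eq_C_mul,
            Finset.mul_sum, mul_assoc] }
    exact LinearIndependent.of_comp φ h.hxi
  obtain ⟨w, hw⟩ := exists_linearIndependent_snoc_of_lt_finrank hi4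
    (by rw [Module.finrank_fin_fun]; omega)
  obtain ⟨e, he⟩ : ∃ e : Fin 5 → Fin 5 → ℂ, e = Fin.snoc e4 w := ⟨_, rfl⟩
  rw [← he] at hw
  have hes : ∀ a : Fin 4, e a.castSucc = e4 a := fun a => by rw [he, Fin.snoc_castSucc]
  have z0 : e4 0 = e 0 := (hes 0).symm
  have z1 : e4 1 = e 1 := (hes 1).symm
  have z2 : e4 2 = e 2 := (hes 2).symm
  have z3 : e4 3 = e 3 := (hes 3).symm
  obtain ⟨nu, hnu⟩ := lf_of_hom h.hn
  obtain ⟨nu', hnu'⟩ := lf_of_hom h.hn'
  obtain ⟨N, hN⟩ := exists_co hw nu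
  obtain ⟨N', hN'⟩ := exists_co hw nu'
  have hn1 : n = C (N 0) * lf (e 0) + C (N 1) * lf (e 1) + C (N 2) * lf (e 2) +
      C (N 3) * lf (e 3) + C (N 4) * lf (e 4) := by
    rw [hnu, lf_co hN, Fin.sum_univ_five]
  have hn1' : n' = C (N' 0) * lf (e 0) + C (N' 1) * lf (e 1) + C (N' 2) * lf (e 2) +
      C (N' 3) * lf (e 3) + C (N' 4) * lf (e 4) := by
    rw [hnu', lf_co hN', Fin.sum_univ_five]
  have sh := th3_shift (fun a => lf (e4 a)) l n n' ![N 0, N 1, N' 2, N' 3]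
  rw [sh] at hcl
  obtain ⟨l', hl'⟩ : ∃ l' : Fin 5 → Pn 5, l' = (fun i => l i -
      C ((![N 0, N 1, N' 2, N' 3] : Fin 4 → ℂ) 2) * (![0, 0, lf (e4 0), lf (e4 1), 0] : F1 5) i +
      C ((![N 0, N 1, N' 2, N' 3] : Fin 4 → ℂ) 3) * (![lf (e4 0), lf (e4 1), 0, 0, 0] : F1 5) i +
      C ((![N 0, N 1, N' 2, N' 3] : Fin 4 → ℂ) 0) * (![0, lf (e4 2), 0, lf (e4 3), 0] : F1 5) i -
      C ((![N 0, N 1, N' 2, N' 3] : Fin 4 → ℂ) 1) * (![lf (e4 2), 0, lf (e4 3), 0, 0] : F1 5) i) :=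
    ⟨_, rfl⟩
  have hcm : ∀ (c : ℂ) (p : Pn 5), p.IsHomogeneous 1 → (C c * p).IsHomogeneous 1 := by
    intro c p hp
    have := (isHomogeneous_C (Fin 5) c).mul hp
    rwa [zero_add] at this
  have hl1 : ∀ i, (l' i).IsHomogeneous 1 := by
    intro i
    rw [hl']
    have q0 := h.hx 0
    have q1 := h.hx 1
    have q2 := h.hx 2
    have q3 := h.hx 3
    have qz : (0 : Pn 5).IsHomogeneous 1 := isHomogeneous_zero _ _ _
    have vec5 : ∀ a b c d f : Pn 5, a.IsHomogeneous 1 → b.IsHomogeneous 1 → c.IsHomogeneous 1 →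
        d.IsHomogeneous 1 → f.IsHomogeneous 1 → ((![a, b, c, d, f] : F1 5) i).IsHomogeneous 1 := by
      intro a b c d f ha hb hc hd hf
      fin_cases i
      exacts [ha, hb, hc, hd, hf]
    exact ((((h.hl i).sub (hcm _ _ (vec5 _ _ _ _ _ qz qz q0 q1 qz))).add
      (hcm _ _ (vec5 _ _ _ _ _ q0 q1 qz qz qz))).add
      (hcm _ _ (vec5 _ _ _ _ _ qz q2 qz q3 qz))).sub (hcm _ _ (vec5 _ _ _ _ _ q2 qz q3 qz qz))
  have hl4 : l' 4 = l 4 := by
    rw [hl']
    simp
  have hlam : ∀ i, ∃ a, l' i = lf a := fun i => lf_of_hom (hl1 i)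
  choose lam hlam using hlam
  have hco : ∀ j, ∃ c : Fin 5 → ℂ, ∀ k, lam j k = ∑ i, c i * e i k := fun j => exists_co hw _
  choose L hL using hco
  have hcl1 : Closed (th3 (fun a : Fin 4 => lf (e a.castSucc)) (fun j => lf (lam j))
      (lf (fun j => N 2 * e 2 j + N 3 * e 3 j + N 4 * e 4 j))
      (lf (fun j => N' 0 * e 0 j + N' 1 * e 1 j + N' 4 * e 4 j))) := by
    have a1 : (fun a : Fin 4 => lf (e a.castSucc)) = fun a => lf (e4 a) :=
      _root_.funext fun a => by rw [hes]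
    have a2 : (fun j => lf (lam j)) = l' := _root_.funext fun j => (hlam j).symm
    have a3 : lf (fun j => N 2 * e 2 j + N 3 * e 3 j + N 4 * e 4 j) =
        n - C ((![N 0, N 1, N' 2, N' 3] : Fin 4 → ℂ) 0) * lf (e4 0) -
          C ((![N 0, N 1, N' 2, N' 3] : Fin 4 → ℂ) 1) * lf (e4 1) := by
      rw [lf_co (e := e) (c := ![0, 0, N 2, N 3, N 4]) (by
        intro k
        rw [Fin.sum_univ_five]
        simp), Fin.sum_univ_five, hn1, z0, z1]
      simp
      ring
    have a4 : lf (fun j => N' 0 * e 0 j + N' 1 * e 1 j + N' 4 * e 4 j) =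
        n' - C ((![N 0, N 1, N' 2, N' 3] : Fin 4 → ℂ) 2) * lf (e4 2) -
          C ((![N 0, N 1, N' 2, N' 3] : Fin 4 → ℂ) 3) * lf (e4 3) := by
      rw [lf_co (e := e) (c := ![N' 0, N' 1, 0, 0, N' 4]) (by
        intro k
        rw [Fin.sum_univ_five]
        simp), Fin.sum_univ_five, hn1', z2, z3]
      simp
      ring
    rw [a1, a2, a3, a4, hl']
    exact hcl
  have P := PE_of hw hcl1 hL (m0 := N' 0) (m1 := N' 1) (m2 := N' 4) (fun k => rfl)
  have hcl2 := closed_mirror (e := fun a : Fin 4 => e a.castSucc) hcl1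
  have hsw : ∀ (v : Fin 5 → ℂ) (k : Fin 5), sw v k = v (tr k) := by
    intro v k
    fin_cases k <;> rfl
  have htr : ∀ j : Fin 5, tr (tr j) = j := by decide
  obtain ⟨e', he'⟩ : ∃ e' : Fin 5 → Fin 5 → ℂ,
      e' = ![sw (e 2), sw (e 3), sw (e 0), sw (e 1), sw (e 4)] := ⟨_, rfl⟩
  have hw' : LinearIndependent ℂ e' := by
    let ψ : (Fin 5 → ℂ) →ₗ[ℂ] (Fin 5 → ℂ) :=
      { toFun := fun v => sw v
        map_add' := fun a b => by
          funext k
          rw [hsw, Pi.add_apply, Pi.add_apply, hsw, hsw]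
        map_smul' := fun c a => by
          funext k
          rw [hsw, Pi.smul_apply, RingHom.id_apply, Pi.smul_apply, hsw] }
    have hψ : LinearMap.ker ψ = ⊥ := by
      rw [LinearMap.ker_eq_bot]
      intro a b hab
      funext k
      have h1 := congrFun (show sw a = sw b from hab) (tr k)
      rw [hsw, hsw, htr] at h1
      exact h1
    have hπ : Function.Injective (![2, 3, 0, 1, 4] : Fin 5 → Fin 5) := by decide
    have h2 := (hw.comp _ hπ).map' ψ hψ
    have h3 : (⇑ψ ∘ e ∘ (![2, 3, 0, 1, 4] : Fin 5 → Fin 5)) = e' := by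
      rw [he']
      funext i
      fin_cases i <;> rfl
    rw [h3] at h2
    exact h2
  have hcl3 : Closed (th3 (fun a : Fin 4 => lf (e' a.castSucc)) (fun j => lf (sw (lam (tr j))))
      (lf (fun j => - sw (fun j => N' 0 * e 0 j + N' 1 * e 1 j + N' 4 * e 4 j) j))
      (lf (sw (fun j => - (N 2 * e 2 j + N 3 * e 3 j + N 4 * e 4 j))))) := by
    have a1 : (fun a : Fin 4 => lf (e' a.castSucc)) =
        fun a : Fin 4 => lf (sw (e ((![2, 3, 0, 1] : Fin 4 → Fin 4) a).castSucc)) := by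
      rw [he']
      funext a
      fin_cases a <;> rfl
    have a2 : (sw (fun j => - (N 2 * e 2 j + N 3 * e 3 j + N 4 * e 4 j))) =
        fun j => - sw (fun j => N 2 * e 2 j + N 3 * e 3 j + N 4 * e 4 j) j := by
      funext k
      rw [hsw, hsw]
    rw [a1, a2]
    exact hcl2
  have P' := PE_of hw' hcl3 (L := fun j => ![L (tr j) 2, L (tr j) 3, L (tr j) 0, L (tr j) 1,
    L (tr j) 4]) (m0 := - N 2) (m1 := - N 3) (m2 := - N 4) (by
      intro j k
      rw [hsw, hL, Fin.sum_univ_five, Fin.sum_univ_five, he']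
      simp only [Matrix.cons_val, hsw]
      ring) (by
      intro k
      rw [hsw, he']
      simp only [Matrix.cons_val, hsw]
      ring)
  have P1 : PE (sw (e 2)) (sw (e 3)) (sw (e 0)) (sw (e 1))
      (sw (fun j => - (N 2 * e 2 j + N 3 * e 3 j + N 4 * e 4 j)))
      (fun j => ![L (tr j) 2, L (tr j) 3, L (tr j) 4]) ![- N 2, - N 3, - N 4] := by
    rw [he'] at P'
    exact P'
  have hC : ∀ c : ℂ, (C c : Pn 5) = 0 → c = 0 := by
    intro c hc
    exact C_eq_zero.mp hc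
  refine alg3 hw ?_ ?_ ?_ ?_ ?_ P P1
  · have h1 := h.e1
    rw [pderiv_lf, z1] at h1
    exact hC _ h1
  · have h1 := h.e3
    rw [pderiv_lf, z3] at h1
    exact hC _ h1
  · rintro ⟨a2, a3, a4⟩
    apply h.n0 (N 0) (N 1)
    rw [hn1, a2, a3, a4, z0, z1]
    simp
  · rintro ⟨a0, a1, a4⟩
    apply h.n0' (N' 2) (N' 3)
    rw [hn1', a0, a1, a4, z2, z3]
    simp
  · by_contra hcon
    push Not at hcon
    apply h.l4
    rw [← hl4, hlam 4, lf_co (hL 4)]
    apply Finset.sum_eq_zero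
    intro i _
    rw [hcon i, C_0, zero_mul]

end Pool.Agent.Helper18.XE
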