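import Pool.Agent.Helper18.XE.Form

/-! XE-5: the exclusion of (X4).
Let `x_i = ∑ e_ij y_j` (`i < 4`, completed by `x_4`), `n = ∑ N_i x_i`, `k = ∑ H_i x_i`, `λ_j = ∑ L_ji x_i`, `ν = ∂_4 n = ∑ N_i e_i4`, `η = ∂_4 k = ∑ H_i e_i4`.
`eq4`: components `(0,1,2)`, `(4,0,1)`, `(4,1,2)`, `(4,3,0)`, `(4,3,1)`, `(4,3,2)` of `Closed (th4 ..)` at the points with `x = (0,0,p,q,r)`; and, if `e_i4 = 0` for `i < 4`, `ν = 0`,
`L 4 = (l_0, l_1, 0, 0, 0)`, the coefficients of `x_0 x_2, x_0 x_3, x_1 x_2, x_1 x_3` of the components `(4,3,a)`, `a = 0, 1, 2` (a quadratic polynomial in `x`):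
 a = 0: `η + l_0 e_10`, `∂_4λ_0 - ∂_0l - l_0 e_00`, `- ∂_4λ_0 + ∂_0l + l_1 e_10`, `- l_1 e_00`;
 a = 1: `l_0 e_11`, `∂_4λ_1 + η - ∂_1l - l_0 e_01`, `- ∂_4λ_1 + ∂_1l + l_1 e_11`, `- l_1 e_01`;
 a = 2: `l_0 e_12`, `∂_4λ_2 - ∂_2l - l_0 e_02`, `- ∂_4λ_2 + ∂_2l + l_1 e_12`, `η - l_1 e_02` (all checked by machine); add the second and third ones.
`alg4`.  Write `n(p,q,r) = N 2 p + N 3 q + N 4 r ≢ 0`, `l(p,q,r) = L 4 2 p + L 4 3 q + L 4 4 r`.  `c012`: `e 0 1 = e 1 0 =: A1`, `e 1 1 = e 0 2 =: A2`; `A0 = e 0 0`, `A3 = e 1 2`.  `c401`,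
`c412`: `e 0 4 = e 1 4 = 0`.  Then (`e 3 4 = 0`)  a: `l (q A0 - p A1) = p (ν p + 2 n e24)`, b: `l (q A1 - p A2) = q (ν p + n e24)`, c: `l (q A2 - p A3) = ν q²`.
(1) `e 2 4 ≠ 0`.  `ν ≠ 0`: c: `l = c q`, `A3 = 0`, `c A2 = ν`; b: `n e24 = c A1 q - 2 ν p`; a: coefficient of `p²`: `-3 ν = 0`.  `ν = 0`: `l ≢ 0` (otherwise `n = 0` by b), `A2 = A3 = 0`,
`l A1 = n e24`, `q A0 = 3 p A1`, `A1 = 0`, `n = 0`: contradiction.
(0) `e 2 4 = 0`: if `l ≢ 0`: `ν ≠ 0` would give `l ∼ p` (a) and `l ∼ q` (c); `ν = 0` gives `A0 = .. = A3 = 0`: `e 0`, `e 1` are multiples of `(0,0,0,1,0)`: contradiction.  So `l ≡ 0`, `ν = 0`,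
and the equations `d0, d1, d2`: `η = - l0 A1 = l1 A2 = l0 A1 - l1 A2`, so `η = 0`; all products `l_i A_j` vanish: `l0 A1 = 0, l0 A2 = 0, l0 A3 = 0, l0 A0 = l1 A1 = 0, l1 A0 = 0, l1 A2 = 0,
l1 A3 = l0 A2 = 0`; `(l0, l1) ≠ 0`, so all `A_i = 0`: contradiction as before. -/

set_option autoImplicit false
set_option linter.unusedSimpArgs false

namespace Pool.Agent.Helper18.XE

open MvPolynomial
open scoped BigOperators
open Pool.Agent.Helper71.FC
open Pool.Agent.Helper71.FL (w12 pf ct Dec Closed dd)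
open Pool.Agent.Helper18.LB
open Pool.Agent.Helper93 (lsub)

/-- equations of type (X4); `nu = ∂_4 n`, `eta = ∂_4 k` -/
structure PE4 (e L : Fin 5 → Fin 5 → ℂ) (N : Fin 5 → ℂ) (nu eta : ℂ) : Prop where
  c012 : ∀ p q r : ℂ, (N 2 * p + N 3 * q + N 4 * r) *
    (q * (e 0 1 - e 1 0) + p * (e 1 1 - e 0 2)) = 0
  c401 : ∀ p q r : ℂ, p * (N 2 * p + N 3 * q + N 4 * r) * e 0 4 = 0
  c412 : ∀ p q r : ℂ, q * (N 2 * p + N 3 * q + N 4 * r) * e 1 4 = 0
  c430 : e 0 4 = 0 → e 1 4 = 0 → ∀ p q r : ℂ, 2 * p * (N 2 * p + N 3 * q + N 4 * r) * e 2 4 +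
    p ^ 2 * nu + (L 4 2 * p + L 4 3 * q + L 4 4 * r) * (p * e 1 0 - q * e 0 0) = 0
  c431 : e 0 4 = 0 → e 1 4 = 0 → ∀ p q r : ℂ, (N 2 * p + N 3 * q + N 4 * r) *
    (p * e 3 4 + q * e 2 4) + p * q * nu +
    (L 4 2 * p + L 4 3 * q + L 4 4 * r) * (p * e 1 1 - q * e 0 1) = 0
  c432 : e 0 4 = 0 → e 1 4 = 0 → ∀ p q r : ℂ, 2 * q * (N 2 * p + N 3 * q + N 4 * r) * e 3 4 +
    q ^ 2 * nu + (L 4 2 * p + L 4 3 * q + L 4 4 * r) * (p * e 1 2 - q * e 0 2) = 0
  d0 : e 0 4 = 0 → e 1 4 = 0 → e 2 4 = 0 → e 3 4 = 0 → nu = 0 → L 4 2 = 0 → L 4 3 = 0 →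
    L 4 4 = 0 → eta + L 4 0 * e 1 0 = 0 ∧ L 4 1 * e 0 0 = 0 ∧ L 4 0 * e 0 0 = L 4 1 * e 1 0
  d1 : e 0 4 = 0 → e 1 4 = 0 → e 2 4 = 0 → e 3 4 = 0 → nu = 0 → L 4 2 = 0 → L 4 3 = 0 →
    L 4 4 = 0 → L 4 0 * e 1 1 = 0 ∧ L 4 1 * e 0 1 = 0 ∧
      eta - L 4 0 * e 0 1 + L 4 1 * e 1 1 = 0
  d2 : e 0 4 = 0 → e 1 4 = 0 → e 2 4 = 0 → e 3 4 = 0 → nu = 0 → L 4 2 = 0 → L 4 3 = 0 →
    L 4 4 = 0 → L 4 0 * e 1 2 = 0 ∧ eta = L 4 1 * e 0 2 ∧ L 4 0 * e 0 2 = L 4 1 * e 1 2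

private theorem q4_quad {a b c d e f : ℂ} (h : ∀ p q r : ℂ, a * p ^ 2 + b * q ^ 2 + c * r ^ 2 +
    d * (p * q) + e * (p * r) + f * (q * r) = 0) :
    a = 0 ∧ b = 0 ∧ c = 0 ∧ d = 0 ∧ e = 0 ∧ f = 0 := by
  have h1 := h 1 0 0
  have h2 := h 0 1 0
  have h3 := h 0 0 1
  have h4 := h 1 1 0
  have h5 := h 1 0 1
  have h6 := h 0 1 1
  refine ⟨by linear_combination h1, by linear_combination h2, by linear_combination h3,
    by linear_combination h4 - h1 - h2, by linear_combination h5 - h1 - h3,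
    by linear_combination h6 - h2 - h3⟩

private theorem q4_cancel {N : Fin 5 → ℂ} (hN : ¬ (N 2 = 0 ∧ N 3 = 0 ∧ N 4 = 0)) {c : ℂ}
    (h2 : N 2 * c = 0) (h3 : N 3 * c = 0) (h4 : N 4 * c = 0) : c = 0 := by
  by_contra hc
  exact hN ⟨(mul_eq_zero.1 h2).resolve_right hc, (mul_eq_zero.1 h3).resolve_right hc,
    (mul_eq_zero.1 h4).resolve_right hc⟩

private theorem q4_dep {e : Fin 5 → Fin 5 → ℂ} (hi : LinearIndependent ℂ e) (a0 : e 0 0 = 0)
    (a1 : e 0 1 = 0) (a2 : e 0 2 = 0) (a4 : e 0 4 = 0) (b0 : e 1 0 = 0) (b1 : e 1 1 = 0)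
    (b2 : e 1 2 = 0) (b4 : e 1 4 = 0) : False := by
  have h1 : LinearIndependent ℂ ![e 0, e 1] := by
    have := hi.comp ![0, 1] (by decide)
    convert this using 1
    funext i
    fin_cases i <;> rfl
  rw [LinearIndependent.pair_iff] at h1
  have h2 := h1 (e 1 3) (- e 0 3) (by
    funext i
    fin_cases i <;> simp [a0, a1, a2, a4, b0, b1, b2, b4]
    ring)
  have h3 : e 0 3 = 0 := by simpa using h2.2
  apply hi.ne_zero 0
  funext i
  fin_cases i <;> simp [a0, a1, a2, a4, h3]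

theorem alg4 {e L : Fin 5 → Fin 5 → ℂ} {N : Fin 5 → ℂ} {nu eta : ℂ} (h : PE4 e L N nu eta)
    (hi : LinearIndependent ℂ e) (he3 : e 3 4 = 0) (hN : ¬ (N 2 = 0 ∧ N 3 = 0 ∧ N 4 = 0))
    (hL : ∃ i, L 4 i ≠ 0) : False := by
  obtain ⟨u1, u2, -, u3, u4, u5⟩ := q4_quad (a := N 2 * (e 1 1 - e 0 2))
    (b := N 3 * (e 0 1 - e 1 0)) (c := 0) (d := N 2 * (e 0 1 - e 1 0) + N 3 * (e 1 1 - e 0 2))
    (e := N 4 * (e 1 1 - e 0 2)) (f := N 4 * (e 0 1 - e 1 0))
    (fun p q r => by linear_combination h.c012 p q r)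
  have hab : e 0 1 - e 1 0 = 0 ∧ e 1 1 - e 0 2 = 0 := by
    by_cases h4 : N 4 = 0
    · by_cases h2 : N 2 = 0
      · have h3 : N 3 ≠ 0 := fun h3 => hN ⟨h2, h3, h4⟩
        have hα := (mul_eq_zero.1 u2).resolve_left h3
        rw [hα, mul_zero, zero_add] at u3
        exact ⟨hα, (mul_eq_zero.1 u3).resolve_left h3⟩
      · have hβ := (mul_eq_zero.1 u1).resolve_left h2
        rw [hβ, mul_zero, add_zero] at u3
        exact ⟨(mul_eq_zero.1 u3).resolve_left h2, hβ⟩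
    · exact ⟨(mul_eq_zero.1 u5).resolve_left h4, (mul_eq_zero.1 u4).resolve_left h4⟩
  obtain ⟨hα, hβ⟩ := hab
  have e04 : e 0 4 = 0 := by
    obtain ⟨v1, -, -, v2, v3, -⟩ := q4_quad (a := N 2 * e 0 4) (b := 0) (c := 0)
      (d := N 3 * e 0 4) (e := N 4 * e 0 4) (f := 0)
      (fun p q r => by linear_combination h.c401 p q r)
    exact q4_cancel hN v1 v2 v3
  have e14 : e 1 4 = 0 := by
    obtain ⟨-, v2, -, v1, -, v3⟩ := q4_quad (a := 0) (b := N 3 * e 1 4) (c := 0)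
      (d := N 2 * e 1 4) (e := 0) (f := N 4 * e 1 4)
      (fun p q r => by linear_combination h.c412 p q r)
    exact q4_cancel hN v1 v2 v3
  obtain ⟨p1, p2, -, p3, p4, p5⟩ := q4_quad (a := 2 * N 2 * e 2 4 + nu + L 4 2 * e 1 0)
    (b := - (L 4 3 * e 0 0)) (c := 0)
    (d := 2 * N 3 * e 2 4 + L 4 3 * e 1 0 - L 4 2 * e 0 0)
    (e := 2 * N 4 * e 2 4 + L 4 4 * e 1 0) (f := - (L 4 4 * e 0 0))
    (fun p q r => by linear_combination h.c430 e04 e14 p q r)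
  obtain ⟨q1, q2, -, q3, q4, q5⟩ := q4_quad (a := L 4 2 * e 1 1)
    (b := N 3 * e 2 4 - L 4 3 * e 0 1) (c := 0)
    (d := N 2 * e 2 4 + nu + L 4 3 * e 1 1 - L 4 2 * e 0 1)
    (e := L 4 4 * e 1 1) (f := N 4 * e 2 4 - L 4 4 * e 0 1)
    (fun p q r => by
      have := h.c431 e04 e14 p q r
      rw [he3] at this
      linear_combination this)
  obtain ⟨r1, r2, -, r3, r4, r5⟩ := q4_quad (a := L 4 2 * e 1 2)
    (b := nu - L 4 3 * e 0 2) (c := 0)
    (d := L 4 3 * e 1 2 - L 4 2 * e 0 2)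
    (e := L 4 4 * e 1 2) (f := - (L 4 4 * e 0 2))
    (fun p q r => by
      have := h.c432 e04 e14 p q r
      rw [he3] at this
      linear_combination this)
  have hA1 : e 1 0 = e 0 1 := by linear_combination - hα
  have hA2 : e 1 1 = e 0 2 := by linear_combination hβ
  rw [hA1] at p1 p3 p4
  rw [hA2] at q1 q3 q4
  by_cases h24 : e 2 4 = 0
  · rw [h24] at p1 p3 p4 q2 q3 q5
    have hnu : nu = 0 := by
      have : 3 * nu = 0 := by linear_combination p1 + q3 + r2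
      simpa using this
    have k21 : L 4 2 * e 0 1 = 0 := by linear_combination p1 - hnu
    have k32 : L 4 3 * e 0 2 = 0 := by linear_combination hnu - r2
    have k31 : L 4 3 * e 0 1 = 0 := by linear_combination - q2
    have k20 : L 4 2 * e 0 0 = 0 := by linear_combination k31 - p3
    have k30 : L 4 3 * e 0 0 = 0 := by linear_combination - p2
    have k40 : L 4 4 * e 0 0 = 0 := by linear_combination - p5
    have k41 : L 4 4 * e 0 1 = 0 := by linear_combination p4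
    have k33 : L 4 3 * e 1 2 = 0 := by linear_combination r3 + q1
    have key : ∀ c : ℂ, c ≠ 0 → c * e 0 0 = 0 → c * e 0 1 = 0 → c * e 0 2 = 0 →
        c * e 1 2 = 0 → False := by
      intro c hc c0 c1 c2 c3
      have a0 := (mul_eq_zero.1 c0).resolve_left hc
      have a1 := (mul_eq_zero.1 c1).resolve_left hc
      have a2 := (mul_eq_zero.1 c2).resolve_left hc
      have a3 := (mul_eq_zero.1 c3).resolve_left hc
      exact q4_dep hi a0 a1 a2 e04 (hA1.trans a1) (hA2.trans a2) a3 e14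
    by_cases l2 : L 4 2 = 0
    · by_cases l3 : L 4 3 = 0
      · by_cases l4 : L 4 4 = 0
        · obtain ⟨d01, d02, d03⟩ := h.d0 e04 e14 h24 he3 hnu l2 l3 l4
          obtain ⟨d11, d12, d13⟩ := h.d1 e04 e14 h24 he3 hnu l2 l3 l4
          obtain ⟨d21, d22, d23⟩ := h.d2 e04 e14 h24 he3 hnu l2 l3 l4
          rw [hA1] at d01 d03
          rw [hA2] at d11 d13
          have heta : eta = 0 := by
            have : 3 * eta = 0 := by linear_combination d13 + d01 + d22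
            simpa using this
          have m01 : L 4 0 * e 0 1 = 0 := by linear_combination d01 - heta
          have m12 : L 4 1 * e 0 2 = 0 := by linear_combination heta - d22
          have m00 : L 4 0 * e 0 0 = 0 := by linear_combination d03 + d12
          have m13 : L 4 1 * e 1 2 = 0 := by linear_combination d11 - d23
          obtain ⟨i, hi'⟩ := hL
          have h01 : L 4 0 ≠ 0 ∨ L 4 1 ≠ 0 := by
            by_contra hcon
            push Not at hcon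
            obtain ⟨g0, g1⟩ := hcon
            fin_cases i
            · exact hi' g0
            · exact hi' g1
            · exact hi' l2
            · exact hi' l3
            · exact hi' l4
          rcases h01 with g | g
          · exact key _ g m00 m01 d11 d21
          · exact key _ g d02 d12 m12 m13
        · exact key _ l4 k40 k41 q4 r4
      · exact key _ l3 k30 k31 k32 k33
    · exact key _ l2 k20 k21 q1 r1
  · have N4 : N 4 = 0 := by
      have : N 4 * e 2 4 = 0 := by linear_combination (p4 + q5) / 3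
      exact (mul_eq_zero.1 this).resolve_right h24
    have k1 : 3 * (L 4 3 * e 0 1) = L 4 2 * e 0 0 := by linear_combination p3 - 2 * q2
    have hnu2 : nu = L 4 3 * e 0 2 := by linear_combination r2
    have hnu1 : nu = L 4 2 * e 0 1 := by
      linear_combination (2 / 3 : ℂ) * q3 + (2 / 3 : ℂ) * r2 - p1 / 3
    have hN2 : N 2 * e 2 4 = - nu := by linear_combination p1 / 2 + hnu1 / 2
    have hnu : nu = 0 := by
      by_contra hne
      have g1 : L 4 2 ≠ 0 := fun h0 => hne (by rw [hnu1, h0, zero_mul])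
      have g2 : e 0 2 ≠ 0 := fun h0 => hne (by rw [hnu2, h0, mul_zero])
      exact mul_ne_zero g1 g2 q1
    have N2 : N 2 = 0 := by
      rw [hnu, neg_zero] at hN2
      exact (mul_eq_zero.1 hN2).resolve_right h24
    have N3 : N 3 ≠ 0 := fun h3 => hN ⟨N2, h3, N4⟩
    have g3 : L 4 3 * e 0 1 ≠ 0 := by
      intro h0
      have : N 3 * e 2 4 = 0 := by linear_combination q2 + h0
      exact mul_ne_zero N3 h24 this
    have g4 : L 4 3 ≠ 0 := left_ne_zero_of_mul g3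
    have g5 : e 0 0 = 0 := by
      have : L 4 3 * e 0 0 = 0 := by linear_combination - p2
      exact (mul_eq_zero.1 this).resolve_left g4
    rw [g5, mul_zero] at k1
    apply g3
    simpa using k1

/-- values of the polynomials and of their derivatives at a point -/
private structure Ev (y : Fin 5 → ℂ) (x : Fin 4 → Pn 5) (l : Fin 5 → Pn 5) (n h : Pn 5)
    (X : Fin 4 → ℂ) (D : Fin 4 → Fin 5 → ℂ) (Λ : Fin 5 → ℂ) (dL : Fin 5 → Fin 5 → ℂ) (nn : ℂ)
    (dn : Fin 5 → ℂ) (hh : ℂ) (dh : Fin 5 → ℂ) : Prop where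
  vx : ∀ a, eval y (x a) = X a
  dx : ∀ a i, eval y (pderiv i (x a)) = D a i
  vl : ∀ a, eval y (l a) = Λ a
  dl : ∀ a i, eval y (pderiv i (l a)) = dL a i
  vn : eval y n = nn
  en : ∀ i, eval y (pderiv i n) = dn i
  vh : eval y h = hh
  eh : ∀ i, eval y (pderiv i h) = dh i

section ev
variable {y : Fin 5 → ℂ} {x : Fin 4 → Pn 5} {l : Fin 5 → Pn 5} {n h : Pn 5}
    {X : Fin 4 → ℂ} {D : Fin 4 → Fin 5 → ℂ} {Λ : Fin 5 → ℂ} {dL : Fin 5 → Fin 5 → ℂ} {nn : ℂ}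
    {dn : Fin 5 → ℂ} {hh : ℂ} {dh : Fin 5 → ℂ}

private theorem ev012 (E : Ev y x l n h X D Λ dL nn dn hh dh)
    (hcl : Closed (th4 x l n h)) (h0 : X 0 = 0) (h1 : X 1 = 0) :
    nn * (X 3 * (D 0 1 - D 1 0) + X 2 * (D 1 1 - D 0 2)) = 0 := by
  have h2 := congrArg (eval y) (hcl 0 1 2)
  simp [th4, sg4, k4, Derivation.leibniz, E.vx, E.dx, E.vl, E.dl, E.vn, E.en, E.vh, E.eh,
    h0, h1] at h2
  linear_combination h2

private theorem ev401 (E : Ev y x l n h X D Λ dL nn dn hh dh)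
    (hcl : Closed (th4 x l n h)) (h0 : X 0 = 0) (h1 : X 1 = 0) :
    X 2 * nn * D 0 4 = 0 := by
  have h2 := congrArg (eval y) (hcl 4 0 1)
  simp only [th4, sg4, k4, Derivation.leibniz, map_add, map_sub, map_neg, map_mul, map_pow,
    Matrix.cons_val_zero, Matrix.cons_val_one, Matrix.cons_val, pow_two, smul_eq_mul,
    map_zero, E.vx, E.dx, E.vl, E.dl, E.vn, E.en, E.vh, E.eh, h0, h1] at h2
  linear_combination -h2

private theorem ev412 (E : Ev y x l n h X D Λ dL nn dn hh dh)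
    (hcl : Closed (th4 x l n h)) (h0 : X 0 = 0) (h1 : X 1 = 0) :
    X 3 * nn * D 1 4 = 0 := by
  have h2 := congrArg (eval y) (hcl 4 1 2)
  simp only [th4, sg4, k4, Derivation.leibniz, map_add, map_sub, map_neg, map_mul, map_pow,
    Matrix.cons_val_zero, Matrix.cons_val_one, Matrix.cons_val, pow_two, smul_eq_mul,
    map_zero, E.vx, E.dx, E.vl, E.dl, E.vn, E.en, E.vh, E.eh, h0, h1] at h2
  linear_combination -h2

private theorem ev430 (E : Ev y x l n h X D Λ dL nn dn hh dh)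
    (hcl : Closed (th4 x l n h)) (h0 : X 0 = 0) (h1 : X 1 = 0) (d0 : D 0 4 = 0) (d1 : D 1 4 = 0) :
    2 * X 2 * nn * D 2 4 + X 2 ^ 2 * dn 4 + Λ 4 * (X 2 * D 1 0 - X 3 * D 0 0) = 0 := by
  have h2 := congrArg (eval y) (hcl 4 3 0)
  simp only [th4, sg4, k4, Derivation.leibniz, map_add, map_sub, map_neg, map_mul, map_pow,
    Matrix.cons_val_zero, Matrix.cons_val_one, Matrix.cons_val, pow_two, smul_eq_mul,
    map_zero, E.vx, E.dx, E.vl, E.dl, E.vn, E.en, E.vh, E.eh, h0, h1, d0, d1] at h2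
  linear_combination h2

private theorem ev431 (E : Ev y x l n h X D Λ dL nn dn hh dh)
    (hcl : Closed (th4 x l n h)) (h0 : X 0 = 0) (h1 : X 1 = 0) (d0 : D 0 4 = 0) (d1 : D 1 4 = 0) :
    nn * (X 2 * D 3 4 + X 3 * D 2 4) + X 2 * X 3 * dn 4 +
      Λ 4 * (X 2 * D 1 1 - X 3 * D 0 1) = 0 := by
  have h2 := congrArg (eval y) (hcl 4 3 1)
  simp only [th4, sg4, k4, Derivation.leibniz, map_add, map_sub, map_neg, map_mul, map_pow,
    Matrix.cons_val_zero, Matrix.cons_val_one, Matrix.cons_val, pow_two, smul_eq_mul,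
    map_zero, E.vx, E.dx, E.vl, E.dl, E.vn, E.en, E.vh, E.eh, h0, h1, d0, d1] at h2
  linear_combination h2

private theorem ev432 (E : Ev y x l n h X D Λ dL nn dn hh dh)
    (hcl : Closed (th4 x l n h)) (h0 : X 0 = 0) (h1 : X 1 = 0) (d0 : D 0 4 = 0) (d1 : D 1 4 = 0) :
    2 * X 3 * nn * D 3 4 + X 3 ^ 2 * dn 4 + Λ 4 * (X 2 * D 1 2 - X 3 * D 0 2) = 0 := by
  have h2 := congrArg (eval y) (hcl 4 3 2)
  simp only [th4, sg4, k4, Derivation.leibniz, map_add, map_sub, map_neg, map_mul, map_pow,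
    Matrix.cons_val_zero, Matrix.cons_val_one, Matrix.cons_val, pow_two, smul_eq_mul,
    map_zero, E.vx, E.dx, E.vl, E.dl, E.vn, E.en, E.vh, E.eh, h0, h1, d0, d1] at h2
  linear_combination h2

private theorem ev430' (E : Ev y x l n h X D Λ dL nn dn hh dh)
    (hcl : Closed (th4 x l n h)) (d0 : D 0 4 = 0) (d1 : D 1 4 = 0) (d2 : D 2 4 = 0)
    (d3 : D 3 4 = 0) (dn4 : dn 4 = 0) :
    dL 3 4 * X 0 ^ 2 - dL 0 4 * (X 1 * X 2 - X 0 * X 3) + dh 4 * X 0 * X 2 -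
      (dL 4 3 * X 0 ^ 2 + Λ 4 * 2 * X 0 * D 0 3) + dL 4 0 * (X 1 * X 2 - X 0 * X 3) +
      Λ 4 * (D 1 0 * X 2 + X 1 * D 2 0 - D 0 0 * X 3 - X 0 * D 3 0) = 0 := by
  have h2 := congrArg (eval y) (hcl 4 3 0)
  simp only [th4, sg4, k4, Derivation.leibniz, map_add, map_sub, map_neg, map_mul, map_pow,
    Matrix.cons_val_zero, Matrix.cons_val_one, Matrix.cons_val, pow_two, smul_eq_mul,
    map_zero, E.vx, E.dx, E.vl, E.dl, E.vn, E.en, E.vh, E.eh, d0, d1, d2, d3, dn4] at h2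
  linear_combination h2

private theorem ev431' (E : Ev y x l n h X D Λ dL nn dn hh dh)
    (hcl : Closed (th4 x l n h)) (d0 : D 0 4 = 0) (d1 : D 1 4 = 0) (d2 : D 2 4 = 0)
    (d3 : D 3 4 = 0) (dn4 : dn 4 = 0) :
    dL 3 4 * X 0 * X 1 - dL 1 4 * (X 1 * X 2 - X 0 * X 3) + dh 4 * X 0 * X 3 -
      (dL 4 3 * X 0 * X 1 + Λ 4 * (X 1 * D 0 3 + X 0 * D 1 3)) +
      dL 4 1 * (X 1 * X 2 - X 0 * X 3) +
      Λ 4 * (D 1 1 * X 2 + X 1 * D 2 1 - D 0 1 * X 3 - X 0 * D 3 1) = 0 := by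
  have h2 := congrArg (eval y) (hcl 4 3 1)
  simp only [th4, sg4, k4, Derivation.leibniz, map_add, map_sub, map_neg, map_mul, map_pow,
    Matrix.cons_val_zero, Matrix.cons_val_one, Matrix.cons_val, pow_two, smul_eq_mul,
    map_zero, E.vx, E.dx, E.vl, E.dl, E.vn, E.en, E.vh, E.eh, d0, d1, d2, d3, dn4] at h2
  linear_combination h2

private theorem ev432' (E : Ev y x l n h X D Λ dL nn dn hh dh)
    (hcl : Closed (th4 x l n h)) (d0 : D 0 4 = 0) (d1 : D 1 4 = 0) (d2 : D 2 4 = 0)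
    (d3 : D 3 4 = 0) (dn4 : dn 4 = 0) :
    dL 3 4 * X 1 ^ 2 - dL 2 4 * (X 1 * X 2 - X 0 * X 3) + dh 4 * X 1 * X 3 -
      (dL 4 3 * X 1 ^ 2 + Λ 4 * 2 * X 1 * D 1 3) +
      dL 4 2 * (X 1 * X 2 - X 0 * X 3) +
      Λ 4 * (D 1 2 * X 2 + X 1 * D 2 2 - D 0 2 * X 3 - X 0 * D 3 2) = 0 := by
  have h2 := congrArg (eval y) (hcl 4 3 2)
  simp only [th4, sg4, k4, Derivation.leibniz, map_add, map_sub, map_neg, map_mul, map_pow,
    Matrix.cons_val_zero, Matrix.cons_val_one, Matrix.cons_val, pow_two, smul_eq_mul,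
    map_zero, E.vx, E.dx, E.vl, E.dl, E.vn, E.en, E.vh, E.eh, d0, d1, d2, d3, dn4] at h2
  linear_combination h2

end ev

private theorem q4_pderiv_lf (a : Fin 5 → ℂ) (j : Fin 5) : pderiv j (lf a) = C (a j) := by
  unfold lf
  rw [map_sum, Finset.sum_eq_single j]
  · rw [pderiv_C_mul, pderiv_X_self, mul_one]
  · intro i _ hij
    rw [pderiv_C_mul, pderiv_X_of_ne hij, mul_zero]
  · intro h
    exact absurd (Finset.mem_univ _) h

private theorem q4_eval_lf (a v : Fin 5 → ℂ) : eval v (lf a) = ∑ i, a i * v i := by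
  unfold lf
  rw [map_sum]
  refine Finset.sum_congr rfl fun i _ => ?_
  rw [map_mul, eval_C, eval_X]

/-- points with given values of the coordinates -/
private theorem q4_pt {e : Fin 5 → Fin 5 → ℂ} (hi : LinearIndependent ℂ e) (X : Fin 5 → ℂ) :
    ∃ y : Fin 5 → ℂ, ∀ a, eval y (lf (e a)) = X a := by
  have h1 : IsUnit (Matrix.of e) := Matrix.linearIndependent_rows_iff_isUnit.1 hi
  refine ⟨(Matrix.of e)⁻¹.mulVec X, fun a => ?_⟩
  have h2 : (Matrix.of e).mulVec ((Matrix.of e)⁻¹.mulVec X) = X := by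
    rw [Matrix.mulVec_mulVec, Matrix.mul_nonsing_inv _ ((Matrix.isUnit_iff_isUnit_det _).1 h1),
      Matrix.one_mulVec]
  rw [q4_eval_lf]
  exact congrFun h2 a

/-- the equations from `dθ = 0` -/
theorem eq4 {e L : Fin 5 → Fin 5 → ℂ} (hi : LinearIndependent ℂ e) {N H : Fin 5 → ℂ}
    (hcl : Closed (th4 (fun a => lf (e a.castSucc)) (fun j => ∑ i, C (L j i) * lf (e i))
      (∑ i, C (N i) * lf (e i)) (∑ i, C (H i) * lf (e i)))) :
    PE4 e L N (∑ i, N i * e i 4) (∑ i, H i * e i 4) := by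
  have hE : ∀ X : Fin 5 → ℂ, ∃ y : Fin 5 → ℂ, Ev y (fun a : Fin 4 => lf (e a.castSucc))
      (fun j => ∑ i, C (L j i) * lf (e i)) (∑ i, C (N i) * lf (e i)) (∑ i, C (H i) * lf (e i))
      (fun a => X a.castSucc) (fun a i => e a.castSucc i) (fun j => ∑ i, L j i * X i)
      (fun j i => ∑ a, L j a * e a i) (∑ i, N i * X i) (fun i => ∑ a, N a * e a i)
      (∑ i, H i * X i) (fun i => ∑ a, H a * e a i) := by
    intro X
    obtain ⟨y, hy⟩ := q4_pt hi X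
    have hsum : ∀ M : Fin 5 → ℂ, eval y (∑ i, C (M i) * lf (e i)) = ∑ i, M i * X i := by
      intro M
      rw [map_sum]
      refine Finset.sum_congr rfl fun i _ => ?_
      rw [map_mul, eval_C, hy]
    have hd : ∀ (M : Fin 5 → ℂ) (j : Fin 5),
        eval y (pderiv j (∑ i, C (M i) * lf (e i))) = ∑ a, M a * e a j := by
      intro M j
      rw [map_sum, map_sum]
      refine Finset.sum_congr rfl fun i _ => ?_
      rw [pderiv_C_mul, q4_pderiv_lf, map_mul, eval_C, eval_C]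
    refine ⟨y, fun a => hy _, fun a i => ?_, fun a => hsum _, fun a i => hd _ _, hsum _,
      fun i => hd _ _, hsum _, fun i => hd _ _⟩
    show eval y (pderiv i (lf (e a.castSucc))) = e a.castSucc i
    rw [q4_pderiv_lf, eval_C]
  refine ⟨?_, ?_, ?_, ?_, ?_, ?_, ?_, ?_, ?_⟩
  · intro p q r
    obtain ⟨y, E⟩ := hE ![0, 0, p, q, r]
    have h1 := ev012 E hcl rfl rfl
    simp only [Fin.sum_univ_five] at h1
    have h2 : (N 0 * 0 + N 1 * 0 + N 2 * p + N 3 * q + N 4 * r) *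
      (q * (e 0 1 - e 1 0) + p * (e 1 1 - e 0 2)) = 0 := h1
    linear_combination h2
  · intro p q r
    obtain ⟨y, E⟩ := hE ![0, 0, p, q, r]
    have h1 := ev401 E hcl rfl rfl
    simp only [Fin.sum_univ_five] at h1
    have h2 : p * (N 0 * 0 + N 1 * 0 + N 2 * p + N 3 * q + N 4 * r) * e 0 4 = 0 := h1
    linear_combination h2
  · intro p q r
    obtain ⟨y, E⟩ := hE ![0, 0, p, q, r]
    have h1 := ev412 E hcl rfl rfl
    simp only [Fin.sum_univ_five] at h1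
    have h2 : q * (N 0 * 0 + N 1 * 0 + N 2 * p + N 3 * q + N 4 * r) * e 1 4 = 0 := h1
    linear_combination h2
  · intro d0 d1 p q r
    obtain ⟨y, E⟩ := hE ![0, 0, p, q, r]
    have h1 := ev430 E hcl rfl rfl d0 d1
    have h2 : 2 * p * (∑ i, N i * (![0, 0, p, q, r] : Fin 5 → ℂ) i) * e 2 4 +
      p ^ 2 * (∑ i, N i * e i 4) + (∑ i, L 4 i * (![0, 0, p, q, r] : Fin 5 → ℂ) i) *
        (p * e 1 0 - q * e 0 0) = 0 := h1
    rw [Fin.sum_univ_five (f := fun i => N i * (![0, 0, p, q, r] : Fin 5 → ℂ) i),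
      Fin.sum_univ_five (f := fun i => L 4 i * (![0, 0, p, q, r] : Fin 5 → ℂ) i)] at h2
    have h3 : 2 * p * (N 0 * 0 + N 1 * 0 + N 2 * p + N 3 * q + N 4 * r) * e 2 4 +
      p ^ 2 * (∑ i, N i * e i 4) + (L 4 0 * 0 + L 4 1 * 0 + L 4 2 * p + L 4 3 * q + L 4 4 * r) *
        (p * e 1 0 - q * e 0 0) = 0 := h2
    linear_combination h3
  · intro d0 d1 p q r
    obtain ⟨y, E⟩ := hE ![0, 0, p, q, r]
    have h1 := ev431 E hcl rfl rfl d0 d1
    have h2 : (∑ i, N i * (![0, 0, p, q, r] : Fin 5 → ℂ) i) * (p * e 3 4 + q * e 2 4) +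
      p * q * (∑ i, N i * e i 4) + (∑ i, L 4 i * (![0, 0, p, q, r] : Fin 5 → ℂ) i) *
        (p * e 1 1 - q * e 0 1) = 0 := h1
    rw [Fin.sum_univ_five (f := fun i => N i * (![0, 0, p, q, r] : Fin 5 → ℂ) i),
      Fin.sum_univ_five (f := fun i => L 4 i * (![0, 0, p, q, r] : Fin 5 → ℂ) i)] at h2
    have h3 : (N 0 * 0 + N 1 * 0 + N 2 * p + N 3 * q + N 4 * r) * (p * e 3 4 + q * e 2 4) +
      p * q * (∑ i, N i * e i 4) + (L 4 0 * 0 + L 4 1 * 0 + L 4 2 * p + L 4 3 * q + L 4 4 * r) *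
        (p * e 1 1 - q * e 0 1) = 0 := h2
    linear_combination h3
  · intro d0 d1 p q r
    obtain ⟨y, E⟩ := hE ![0, 0, p, q, r]
    have h1 := ev432 E hcl rfl rfl d0 d1
    have h2 : 2 * q * (∑ i, N i * (![0, 0, p, q, r] : Fin 5 → ℂ) i) * e 3 4 +
      q ^ 2 * (∑ i, N i * e i 4) + (∑ i, L 4 i * (![0, 0, p, q, r] : Fin 5 → ℂ) i) *
        (p * e 1 2 - q * e 0 2) = 0 := h1
    rw [Fin.sum_univ_five (f := fun i => N i * (![0, 0, p, q, r] : Fin 5 → ℂ) i),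
      Fin.sum_univ_five (f := fun i => L 4 i * (![0, 0, p, q, r] : Fin 5 → ℂ) i)] at h2
    have h3 : 2 * q * (N 0 * 0 + N 1 * 0 + N 2 * p + N 3 * q + N 4 * r) * e 3 4 +
      q ^ 2 * (∑ i, N i * e i 4) + (L 4 0 * 0 + L 4 1 * 0 + L 4 2 * p + L 4 3 * q + L 4 4 * r) *
        (p * e 1 2 - q * e 0 2) = 0 := h2
    linear_combination h3
  · intro d0 d1 d2 d3 hnu l2 l3 l4
    have F : ∀ x0 x1 x2 x3 : ℂ,
        (∑ a, L 3 a * e a 4) * x0 ^ 2 - (∑ a, L 0 a * e a 4) * (x1 * x2 - x0 * x3) +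
        (∑ a, H a * e a 4) * x0 * x2 -
        ((∑ a, L 4 a * e a 3) * x0 ^ 2 + (L 4 0 * x0 + L 4 1 * x1) * 2 * x0 * e 0 3) +
        (∑ a, L 4 a * e a 0) * (x1 * x2 - x0 * x3) +
        (L 4 0 * x0 + L 4 1 * x1) *
          (e 1 0 * x2 + x1 * e 2 0 - e 0 0 * x3 - x0 * e 3 0) = 0 := by
      intro x0 x1 x2 x3
      obtain ⟨y, E⟩ := hE ![x0, x1, x2, x3, 0]
      have h1 := ev430' E hcl d0 d1 d2 d3 hnu
      have h4 : (∑ i, L 4 i * (![x0, x1, x2, x3, 0] : Fin 5 → ℂ) i) =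
          L 4 0 * x0 + L 4 1 * x1 := by
        rw [Fin.sum_univ_five]
        show L 4 0 * x0 + L 4 1 * x1 + L 4 2 * x2 + L 4 3 * x3 + L 4 4 * 0 = _
        rw [l2, l3]
        ring
      rw [← h4]
      exact h1
    have f0 := F 1 0 0 0
    have f02 := F 1 0 1 0
    have f03 := F 1 0 0 1
    have f1 := F 0 1 0 0
    have f12 := F 0 1 1 0
    have f13 := F 0 1 0 1
    refine ⟨?_, ?_, ?_⟩
    · linear_combination f02 - f0
    · linear_combination f1 - f13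
    · linear_combination - (f12 - f1 + f03 - f0)
  · intro d0 d1 d2 d3 hnu l2 l3 l4
    have F : ∀ x0 x1 x2 x3 : ℂ,
        (∑ a, L 3 a * e a 4) * x0 * x1 - (∑ a, L 1 a * e a 4) * (x1 * x2 - x0 * x3) +
        (∑ a, H a * e a 4) * x0 * x3 -
        ((∑ a, L 4 a * e a 3) * x0 * x1 +
          (L 4 0 * x0 + L 4 1 * x1) * (x1 * e 0 3 + x0 * e 1 3)) +
        (∑ a, L 4 a * e a 1) * (x1 * x2 - x0 * x3) +
        (L 4 0 * x0 + L 4 1 * x1) *
          (e 1 1 * x2 + x1 * e 2 1 - e 0 1 * x3 - x0 * e 3 1) = 0 := by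
      intro x0 x1 x2 x3
      obtain ⟨y, E⟩ := hE ![x0, x1, x2, x3, 0]
      have h1 := ev431' E hcl d0 d1 d2 d3 hnu
      have h4 : (∑ i, L 4 i * (![x0, x1, x2, x3, 0] : Fin 5 → ℂ) i) =
          L 4 0 * x0 + L 4 1 * x1 := by
        rw [Fin.sum_univ_five]
        show L 4 0 * x0 + L 4 1 * x1 + L 4 2 * x2 + L 4 3 * x3 + L 4 4 * 0 = _
        rw [l2, l3]
        ring
      rw [← h4]
      exact h1
    have f0 := F 1 0 0 0
    have f02 := F 1 0 1 0
    have f03 := F 1 0 0 1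
    have f1 := F 0 1 0 0
    have f12 := F 0 1 1 0
    have f13 := F 0 1 0 1
    refine ⟨?_, ?_, ?_⟩
    · linear_combination f02 - f0
    · linear_combination f1 - f13
    · linear_combination f12 - f1 + f03 - f0
  · intro d0 d1 d2 d3 hnu l2 l3 l4
    have F : ∀ x0 x1 x2 x3 : ℂ,
        (∑ a, L 3 a * e a 4) * x1 ^ 2 - (∑ a, L 2 a * e a 4) * (x1 * x2 - x0 * x3) +
        (∑ a, H a * e a 4) * x1 * x3 -
        ((∑ a, L 4 a * e a 3) * x1 ^ 2 + (L 4 0 * x0 + L 4 1 * x1) * 2 * x1 * e 1 3) +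
        (∑ a, L 4 a * e a 2) * (x1 * x2 - x0 * x3) +
        (L 4 0 * x0 + L 4 1 * x1) *
          (e 1 2 * x2 + x1 * e 2 2 - e 0 2 * x3 - x0 * e 3 2) = 0 := by
      intro x0 x1 x2 x3
      obtain ⟨y, E⟩ := hE ![x0, x1, x2, x3, 0]
      have h1 := ev432' E hcl d0 d1 d2 d3 hnu
      have h4 : (∑ i, L 4 i * (![x0, x1, x2, x3, 0] : Fin 5 → ℂ) i) =
          L 4 0 * x0 + L 4 1 * x1 := by
        rw [Fin.sum_univ_five]
        show L 4 0 * x0 + L 4 1 * x1 + L 4 2 * x2 + L 4 3 * x3 + L 4 4 * 0 = _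
        rw [l2, l3]
        ring
      rw [← h4]
      exact h1
    have f0 := F 1 0 0 0
    have f02 := F 1 0 1 0
    have f03 := F 1 0 0 1
    have f1 := F 0 1 0 0
    have f12 := F 0 1 1 0
    have f13 := F 0 1 0 1
    refine ⟨?_, ?_, ?_⟩
    · linear_combination f02 - f0
    · linear_combination f13 - f1
    · linear_combination - (f12 - f1 + f03 - f0)

private theorem q4_lf_sum (e : Fin 5 → Fin 5 → ℂ) (M : Fin 5 → ℂ) :
    (∑ i, C (M i) * lf (e i) : Pn 5) = lf (∑ i, M i • e i) := by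
  apply MvPolynomial.funext
  intro v
  rw [map_sum, q4_eval_lf]
  simp only [map_mul, eval_C, q4_eval_lf, Finset.sum_apply, Pi.smul_apply, smul_eq_mul,
    Finset.sum_mul, Finset.mul_sum]
  rw [Finset.sum_comm]
  refine Finset.sum_congr rfl fun i _ => Finset.sum_congr rfl fun j _ => ?_
  ring

theorem no4 {x : Fin 4 → Pn 5} {l : Fin 5 → Pn 5} {n k : Pn 5} (h : Dat4 x l n k)
    (hcl : Closed (th4 x l n k)) : False := by
  choose b hb using fun a => lf_of_hom (h.hx a)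
  have hbi : LinearIndependent ℂ b := by
    have h1 := h.hxi
    rw [Fintype.linearIndependent_iff] at h1 ⊢
    intro c hc
    apply h1 c
    apply MvPolynomial.funext
    intro v
    rw [map_zero, map_sum]
    have h2 : ∀ i, eval v (c i • x i) = ∑ j, c i * b i j * v j := by
      intro i
      rw [hb i, smul_eval, q4_eval_lf, Finset.mul_sum]
      refine Finset.sum_congr rfl fun j _ => ?_
      ring
    simp only [h2]
    rw [Finset.sum_comm]
    refine Finset.sum_eq_zero fun j _ => ?_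
    rw [← Finset.sum_mul]
    have h3 := congrFun hc j
    simp only [Finset.sum_apply, Pi.smul_apply, smul_eq_mul, Pi.zero_apply] at h3
    rw [h3, zero_mul]
  obtain ⟨v, hv⟩ : ∃ v : Fin 5 → ℂ, v ∉ Submodule.span ℂ (Set.range b) := by
    by_contra hcon
    push Not at hcon
    have h1 : Submodule.span ℂ (Set.range b) = ⊤ := by
      rw [Submodule.eq_top_iff']
      exact hcon
    have h2 := finrank_range_le_card (R := ℂ) b
    rw [Set.finrank, h1, finrank_top] at h2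
    simp at h2
  let e : Fin 5 → Fin 5 → ℂ := Fin.snoc b v
  have hei : LinearIndependent ℂ e := linearIndependent_finSnoc.2 ⟨hbi, hv⟩
  have hea : ∀ a : Fin 4, e a.castSucc = b a := fun a => Fin.snoc_castSucc (α := fun _ => Fin 5 → ℂ) v b a
  have hspan : ⊤ ≤ Submodule.span ℂ (Set.range e) := by
    rw [hei.span_eq_top_of_card_eq_finrank (by simp)]
  have hex : ∀ w : Fin 5 → ℂ, ∃ M : Fin 5 → ℂ, w = ∑ i, M i • e i := by
    intro w
    obtain ⟨M, hM⟩ := (Submodule.mem_span_range_iff_exists_fun ℂ).1 (hspan (Submodule.mem_top : w ∈ ⊤))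
    exact ⟨M, hM.symm⟩
  have hpol : ∀ p : Pn 5, p.IsHomogeneous 1 → ∃ M : Fin 5 → ℂ, p = ∑ i, C (M i) * lf (e i) := by
    intro p hp
    obtain ⟨w, hw⟩ := lf_of_hom hp
    obtain ⟨M, hM⟩ := hex w
    exact ⟨M, by rw [q4_lf_sum, ← hM, hw]⟩
  choose L hL using fun j => hpol (l j) (h.hl j)
  obtain ⟨N, hN⟩ := hpol n h.hn
  obtain ⟨H, hH⟩ := hpol k h.hk
  have hx : x = fun a => lf (e a.castSucc) := by
    funext a
    rw [hb a, hea]
  have hl : l = fun j => ∑ i, C (L j i) * lf (e i) := by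
    funext j
    exact hL j
  have hcl' := hcl
  rw [hx, hl, hN, hH] at hcl'
  refine alg4 (eq4 hei hcl') hei ?_ ?_ ?_
  · have h1 := h.e3
    rw [hb 3, q4_pderiv_lf] at h1
    have h2 : b 3 4 = 0 := by
      have := congrArg (eval 0) h1
      simpa using this
    rw [← hea] at h2
    exact h2
  · rintro ⟨h2, h3, h4⟩
    apply h.n0 (N 0) (N 1)
    rw [hN, Fin.sum_univ_five, h2, h3, h4]
    simp only [map_zero, zero_mul, add_zero]
    rw [hx]
    rfl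
  · by_contra hcon
    push Not at hcon
    apply h.l4
    rw [hL 4]
    refine Finset.sum_eq_zero fun i _ => ?_
    rw [hcon i, map_zero, zero_mul]

end Pool.Agent.Helper18.XE
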