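import Pool.Agent.Helper18.XE.Norm

/-! XE-2: explicit forms from `XD`.
`abs_form`: `a_k = i_(e_k) θ` (`av`), `a_k ∧ σ = - σ_k θ` (`w11_av`) gives `σ_k = ∑ c_kI q_I`; `a_j ∧ a_k = θ_jk θ` (from `pf θ = 0`); expand and cancel a non zero
coefficient of `θ`.
`tab3`: write `F 0 1 = n σ`, `F 2 3 = n' σ` (`sig_of_w`, `k = 1`).  Wedge the four relations `cyc` with the `F a b`: e.g. `(0,1,2)`: `x_0 F_12 - x_1 F_02 = - x_2 n σ`,
wedge with `F_02`: `x_0 [F_12, F_02] = x_2 n q_02`, so `[F_02, F_12] = - n x_2²`; `(0,1,3)` with `F_03`: `[F_03, F_13] = - n x_3²`; `(0,2,3)` with `F_02`: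
`[F_02, F_03] = n' x_0²`; `(1,2,3)` with `F_12`: `[F_12, F_13] = n' x_1²`; `(0,1,2)` with `F_13`: `[F_02, F_13] = n' x_0 x_1 - n x_2 x_3`; with `F_03`:
`[F_03, F_12] = - n' x_0 x_1 - n x_2 x_3`.  Order of the basis: `B = (F_02, F_12, F_03, F_13)`; the matrix is `k3`.
`n0`: if `n = c0 x_0 + c1 x_1`: `F'_ab = F_ab + (x_a c_b - x_b c_a) σ` with suitable constants has `F'_01 = 0` and the same relations, so `x_0 F'_12 = x_1 F'_02`,
`F'_02 = x_0 G`, `G ∈ EE θ 2`, `G ∧ σ = x_2 θ ≠ 0` contradicts `e2 = 1`.  The same for `n'` (`G ∧ σ = x_0 θ`).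
`tab4`: `F_01 = n σ`, `F_12 = F_03 + h σ`; `B = (F_02, F_03, F_13, F_23)`; relations `(0,1,2)`, `(0,1,3)`, `(0,2,3)`, `(1,2,3)`; the results are the entries of `k4`
(`[F_02, F_03] = - x_0 (x_2 n + h x_0)`, `[F_02, F_13] = - (n (x_0 x_3 + x_1 x_2) + h x_0 x_1)`, `[F_02, F_23] = - x_2 (x_2 n + h x_0)`, `[F_03, F_13] = - x_1 x_3 n`,
`[F_03, F_23] = - x_3 (x_2 n + h x_0)`, `[F_13, F_23] = - x_3 (x_3 n + h x_1)`).
`exists_form3`: `v` spanning `WW σ` (`finrank ≤ 1`; `≥ 1` by `count_A` and `e3 = 9`), `XD.norm`, `tab3`, `XD.gen` for `av θ e_k` (write `- c_kI` for the coefficients), `abs_form`, `exists_g`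
(`∑ w_k c_kI = 0` for all `I` iff `w ∈ WW σ`, as the quadrics `q_I` are independent), `form_gl`; the new data are `lsub g (x a)`, `lsub g n`, ..;
`l 4 ≠ 0`: `i_v θ = l(v) σ` is not zero as `θ` is not a cone; `e1`, `e3`: `pderiv 4 (lsub g (x a)) = C (eval v (x a))`. -/

set_option autoImplicit false

namespace Pool.Agent.Helper18.XE

open MvPolynomial
open scoped BigOperators
open Pool.Agent.Helper71.FC
open Pool.Agent.Helper71.FL (w12 pf ct Dec Closed dd)
open Pool.Agent.Helper18.LB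
open Pool.Agent.Helper93 (lsub)

private theorem fm_nz {θ : F2 5} (hF : Fol θ) : ∃ i j, θ i j ≠ 0 := by
  by_contra hcon
  push Not at hcon
  have := hF.prim 0 (fun i j => by rw [hcon])
  exact not_isUnit_zero this

theorem abs_form {θ : F2 5} (hF : Fol θ) {σ : F1 5} (hσ : ∀ i j k, w12 σ θ i j k = 0)
    {B : Fin 4 → F1 5} {q : Fin 4 → Pn 5} {κ : Fin 4 → Fin 4 → Pn 5}
    (hq : ∀ I i j, w11 (B I) σ i j = q I * θ i j)
    (hκ : ∀ I J i j, w11 (B I) (B J) i j = κ I J * θ i j)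
    {c : Fin 5 → Fin 4 → ℂ} {l : Fin 5 → Pn 5}
    (ha : ∀ k j, θ k j = - ∑ I, C (c k I) * B I j + l k * σ j) :
    (∀ k, σ k = ∑ I, C (c k I) * q I) ∧
      ∀ j k, θ j k = l j * σ k - l k * σ j + ∑ I, ∑ J, C (c j I * c k J) * κ I J := by
  obtain ⟨i0, j0, h0⟩ := fm_nz hF
  have h1 : ∀ k i j, σ i * θ k j - σ j * θ k i = σ k * θ i j := by
    intro k i j
    have h2 := hσ k i j
    unfold w12 at h2
    rw [hF.dec.2.1 j k] at h2
    linear_combination -h2
  have hs : ∀ k, σ k = ∑ I, C (c k I) * q I := by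
    intro k
    apply mul_right_cancel₀ h0
    rw [← h1 k i0 j0, ha k i0, ha k j0, Finset.sum_mul]
    have h2 : ∀ I, C (c k I) * q I * θ i0 j0 = C (c k I) * (B I i0 * σ j0 - B I j0 * σ i0) := by
      intro I
      rw [mul_assoc, ← hq I i0 j0]
      rfl
    rw [Finset.sum_congr rfl fun I _ => h2 I]
    simp only [mul_sub, Finset.sum_sub_distrib]
    have h3 : ∀ a b : Fin 5, ∑ I, C (c k I) * (B I a * σ b) = (∑ I, C (c k I) * B I a) * σ b := by
      intro a b
      rw [Finset.sum_mul]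
      exact Finset.sum_congr rfl fun I _ => (mul_assoc _ _ _).symm
    rw [h3, h3]
    ring
  refine ⟨hs, fun j k => ?_⟩
  apply mul_right_cancel₀ h0
  have h2 := hF.dec.2.2 j k i0 j0
  unfold pf at h2
  have h3 : θ j k * θ i0 j0 = θ j i0 * θ k j0 - θ j j0 * θ k i0 := by linear_combination h2
  have e : ∀ k a, θ k a = ∑ I, (- C (c k I)) * B I a + l k * σ a := by
    intro k a
    rw [ha k a]
    simp only [neg_mul, Finset.sum_neg_distrib]
  rw [h3, e j i0, e k j0, e j j0, e k i0]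
  have h4 : (∑ I, ∑ J, C (c j I * c k J) * κ I J) * θ i0 j0 =
      (∑ I, (- C (c j I)) * B I i0) * (∑ J, (- C (c k J)) * B J j0) -
      (∑ I, (- C (c j I)) * B I j0) * (∑ J, (- C (c k J)) * B J i0) := by
    rw [Finset.sum_mul_sum, Finset.sum_mul_sum, ← Finset.sum_sub_distrib, Finset.sum_mul]
    refine Finset.sum_congr rfl fun I _ => ?_
    rw [← Finset.sum_sub_distrib, Finset.sum_mul]
    refine Finset.sum_congr rfl fun J _ => ?_
    rw [mul_assoc, ← hκ I J i0 j0]
    unfold w11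
    rw [C_mul]
    ring
  have h5 : ∀ j, (∑ I, (- C (c j I)) * B I i0) * σ j0 - (∑ I, (- C (c j I)) * B I j0) * σ i0 =
      - (σ j * θ i0 j0) := by
    intro j
    rw [hs j, Finset.sum_mul, Finset.sum_mul, ← Finset.sum_sub_distrib, Finset.sum_mul,
      ← Finset.sum_neg_distrib]
    refine Finset.sum_congr rfl fun I _ => ?_
    rw [mul_assoc (C (c j I)), ← hq I i0 j0]
    unfold w11
    ring
  linear_combination l k * h5 j - l j * h5 k - h4

/-- the basis for (X3) -/
def B3 (F : Fin 4 → Fin 4 → F1 5) : Fin 4 → F1 5 := ![F 0 2, F 1 2, F 0 3, F 1 3]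

/-- the basis for (X4) -/
def B4 (F : Fin 4 → Fin 4 → F1 5) : Fin 4 → F1 5 := ![F 0 2, F 0 3, F 1 3, F 2 3]

/-- `x a` does not divide `x b` -/
private theorem fm_ndvd {x : Fin 4 → Pn 5} (hx : ∀ a, (x a).IsHomogeneous 1)
    (hxi : LinearIndependent ℂ x) {a b : Fin 4} (hab : a ≠ b) : ¬ x a ∣ x b := by
  rintro ⟨g, hg⟩
  have ha0 := hxi.ne_zero a
  have h1 : (x a * g).IsHomogeneous (1 + 0) := by rw [← hg]; exact hx b
  have h2 : g.IsHomogeneous 0 := hom_right h1 (hx a) ha0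
  rw [← totalDegree_zero_iff_isHomogeneous, totalDegree_eq_zero_iff_eq_C] at h2
  have h3 := hxi.comp ![a, b] (by
    intro i j hij
    fin_cases i <;> fin_cases j
    · rfl
    · exact absurd (show a = b from hij) hab
    · exact absurd (show b = a from hij).symm hab
    · rfl)
  have h4 : x ∘ ![a, b] = ![x a, x b] := by
    funext i
    fin_cases i <;> rfl
  rw [h4, LinearIndependent.pair_iff] at h3
  have h5 := (h3 (coeff 0 g) (-1) (by
    rw [hg, smul_eq_C_mul, ← h2, neg_smul, one_smul]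
    ring)).2
  exact (neg_ne_zero.2 one_ne_zero) h5

/-- there is no element of degree 2 with non zero wedge product with `σ` -/
private theorem fm_div {θ : F2 5} {s : Bool} {σ : F1 5} {x : Fin 4 → Pn 5}
    {F : Fin 4 → Fin 4 → F1 5} (h : XD θ s σ x F) {a b : Fin 4} (hab : a ≠ b) {A A' : F1 5}
    (hA : A ∈ EE θ 3) (hr : ∀ i, x a * A' i = x b * A i) {t : Pn 5}
    (hw : ∀ i j, w11 A σ i j = x a * t * θ i j) : t = 0 := by
  have ha0 := h.hxi.ne_zero a
  have h1 : ∀ i, x a ∣ A i := fun i =>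
    ((prime_of_hom_one (h.hx a) ha0).dvd_or_dvd ⟨A' i, (hr i).symm⟩).resolve_left
      (fm_ndvd h.hx h.hxi hab)
  choose G hG using h1
  have h2 : G ∈ EE θ 2 := by
    refine ⟨fun i => hom_right (d := 1) (e := 2) (by rw [← hG i]; exact hA.1 i) (h.hx a) ha0,
      fun i j k => ?_⟩
    have h3 : x a * w12 G θ i j k = 0 := by
      rw [← hA.2 i j k]
      unfold w12
      rw [hG i, hG j, hG k]
      ring
    exact (mul_eq_zero.1 h3).resolve_left ha0
  have h3 : (⟨σ, h.hσ⟩ : EE θ 2) ≠ 0 := fun hh => h.hσ0 (congrArg Subtype.val hh)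
  obtain ⟨c, hc⟩ := (finrank_eq_one_iff_of_nonzero' _ h3).1 h.e2 ⟨G, h2⟩
  have h4 : ∀ i, G i = C c * σ i := by
    intro i
    rw [← smul_eq_C_mul]
    exact (congrFun (congrArg Subtype.val hc) i).symm
  obtain ⟨i0, j0, h0⟩ := fm_nz h.fol
  have h5 := hw i0 j0
  unfold w11 at h5
  rw [hG i0, hG j0, h4 i0, h4 j0] at h5
  have h6 : x a * t * θ i0 j0 = 0 := by rw [← h5]; ring
  exact (mul_eq_zero.1 ((mul_eq_zero.1 h6).resolve_right h0)).resolve_left ha0

/-- adding a multiple of `σ` -/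
private theorem fm_add {θ : F2 5} {σ A : F1 5} (hA : A ∈ EE θ 3) (hσ : σ ∈ EE θ 2) {l : Pn 5}
    (hl : l.IsHomogeneous 1) : (fun i => A i + l * σ i) ∈ EE θ 3 := by
  refine ⟨fun i => (hA.1 i).add (hl.mul (hσ.1 i)), fun i j k => ?_⟩
  have h1 := hA.2 i j k
  have h2 := hσ.2 i j k
  unfold w12 at h1 h2 ⊢
  linear_combination h1 + l * h2

private theorem fm_cm {l : Pn 5} (hl : l.IsHomogeneous 1) (c : ℂ) : (C c * l).IsHomogeneous 1 := by
  have := (isHomogeneous_C (Fin 5) c).mul hl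
  rwa [zero_add] at this

theorem tab3 {θ : F2 5} {σ : F1 5} {x : Fin 4 → Pn 5} {F : Fin 4 → Fin 4 → F1 5}
    (h : XD θ true σ x F) : ∃ n n' : Pn 5, n.IsHomogeneous 1 ∧ n'.IsHomogeneous 1 ∧
      (∀ i, F 0 1 i = n * σ i) ∧ (∀ i, F 2 3 i = n' * σ i) ∧
      (∀ I i j, w11 (B3 F I) σ i j = sg3 x I.castSucc * θ i j) ∧
      (∀ I J i j, w11 (B3 F I) (B3 F J) i j = k3 x n n' I.castSucc J.castSucc * θ i j) ∧
      (∀ c0 c1 : ℂ, n ≠ C c0 * x 0 + C c1 * x 1) ∧
      (∀ c2 c3 : ℂ, n' ≠ C c2 * x 2 + C c3 * x 3) := by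
  have p : pat true x = ![0, 0, x 2, x 3] := rfl
  have p0 : pat true x 0 = 0 := rfl
  have p1 : pat true x 1 = 0 := rfl
  have p2 : pat true x 2 = x 2 := rfl
  have p3 : pat true x 3 = x 3 := rfl
  have x0 := h.hxi.ne_zero 0
  have x2 := h.hxi.ne_zero 2
  obtain ⟨n, hn, e01⟩ := sig_of_w (k := 1) h.e1 h.hσ h.hσ0 (h.hF 0 1).1 (fun i j => by
    rw [h.wedge, p0, p1]; ring)
  obtain ⟨n', hn', e23⟩ := sig_of_w (k := 1) h.e1 h.hσ h.hσ0 (h.hF 2 3).1 (fun i j => by
    rw [h.wedge, p2, p3]; ring)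
  have wa : ∀ i j, F 0 2 i * σ j - F 0 2 j * σ i = x 0 * x 2 * θ i j := fun i j => by
    have := h.wedge 0 2 i j
    rw [p0, p2] at this
    unfold w11 at this
    linear_combination this
  have wb : ∀ i j, F 1 2 i * σ j - F 1 2 j * σ i = x 1 * x 2 * θ i j := fun i j => by
    have := h.wedge 1 2 i j
    rw [p1, p2] at this
    unfold w11 at this
    linear_combination this
  have wc : ∀ i j, F 0 3 i * σ j - F 0 3 j * σ i = x 0 * x 3 * θ i j := fun i j => by
    have := h.wedge 0 3 i j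
    rw [p0, p3] at this
    unfold w11 at this
    linear_combination this
  have wd : ∀ i j, F 1 3 i * σ j - F 1 3 j * σ i = x 1 * x 3 * θ i j := fun i j => by
    have := h.wedge 1 3 i j
    rw [p1, p3] at this
    unfold w11 at this
    linear_combination this
  have r012 : ∀ i, x 0 * F 1 2 i - x 1 * F 0 2 i + x 2 * n * σ i = 0 := fun i => by
    have := h.cyc 0 1 2 i
    rw [h.skew 2 0, e01] at this
    linear_combination this
  have r013 : ∀ i, x 0 * F 1 3 i - x 1 * F 0 3 i + x 3 * n * σ i = 0 := fun i => by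
    have := h.cyc 0 1 3 i
    rw [h.skew 3 0, e01] at this
    linear_combination this
  have r023 : ∀ i, x 0 * n' * σ i - x 2 * F 0 3 i + x 3 * F 0 2 i = 0 := fun i => by
    have := h.cyc 0 2 3 i
    rw [h.skew 3 0, e23] at this
    linear_combination this
  have r123 : ∀ i, x 1 * n' * σ i - x 2 * F 1 3 i + x 3 * F 1 2 i = 0 := fun i => by
    have := h.cyc 1 2 3 i
    rw [h.skew 3 1, e23] at this
    linear_combination this
  have ab : ∀ i j, F 0 2 i * F 1 2 j - F 0 2 j * F 1 2 i = -(n * x 2 ^ 2) * θ i j := fun i j => by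
    apply mul_left_cancel₀ x0
    linear_combination F 0 2 i * r012 j - F 0 2 j * r012 i - x 2 * n * wa i j
  have cd : ∀ i j, F 0 3 i * F 1 3 j - F 0 3 j * F 1 3 i = -(n * x 3 ^ 2) * θ i j := fun i j => by
    apply mul_left_cancel₀ x0
    linear_combination F 0 3 i * r013 j - F 0 3 j * r013 i - x 3 * n * wc i j
  have ac : ∀ i j, F 0 2 i * F 0 3 j - F 0 2 j * F 0 3 i = (n' * x 0 ^ 2) * θ i j := fun i j => by
    apply mul_left_cancel₀ x2
    linear_combination - F 0 2 i * r023 j + F 0 2 j * r023 i + x 0 * n' * wa i j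
  have bd : ∀ i j, F 1 2 i * F 1 3 j - F 1 2 j * F 1 3 i = (n' * x 1 ^ 2) * θ i j := fun i j => by
    apply mul_left_cancel₀ x2
    linear_combination - F 1 2 i * r123 j + F 1 2 j * r123 i + x 1 * n' * wb i j
  have ad : ∀ i j, F 0 2 i * F 1 3 j - F 0 2 j * F 1 3 i =
      (n' * x 0 * x 1 - n * x 2 * x 3) * θ i j := fun i j => by
    apply mul_left_cancel₀ x0
    linear_combination F 0 2 i * r013 j - F 0 2 j * r013 i + x 1 * ac i j - x 3 * n * wa i j
  have bc : ∀ i j, F 1 2 i * F 0 3 j - F 1 2 j * F 0 3 i =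
      (n' * x 0 * x 1 + n * x 2 * x 3) * θ i j := fun i j => by
    apply mul_left_cancel₀ x0
    linear_combination F 0 3 j * r012 i - F 0 3 i * r012 j + x 1 * ac i j + x 2 * n * wc i j
  have zz : ∀ (A : F1 5) i j, w11 A A i j = 0 * θ i j := fun A i j => by
    unfold w11
    ring
  have neg : ∀ (A B : F1 5) (K : Pn 5) (i j : Fin 5), w11 A B i j = K * θ i j →
      w11 B A i j = (-K) * θ i j := fun A B K i j hh => by
    unfold w11 at hh ⊢
    linear_combination -hh
  refine ⟨n, n', hn, hn', e01, e23, ?_, ?_, ?_, ?_⟩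
  · intro I i j
    fin_cases I
    · exact wa i j
    · exact wb i j
    · exact wc i j
    · exact wd i j
  · intro I J i j
    fin_cases I <;> fin_cases J
    · exact zz _ i j
    · exact ab i j
    · exact ac i j
    · exact ad i j
    · have := neg _ _ _ i j (ab i j)
      rw [neg_neg] at this
      exact this
    · exact zz _ i j
    · exact bc i j
    · exact bd i j
    · exact neg _ _ _ i j (ac i j)
    · exact neg _ _ _ i j (bc i j)
    · exact zz _ i j
    · exact cd i j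
    · exact neg _ _ _ i j (ad i j)
    · exact neg _ _ _ i j (bd i j)
    · have := neg _ _ _ i j (cd i j)
      rw [neg_neg] at this
      exact this
    · exact zz _ i j
  · intro c0 c1 hc
    refine h.hxi.ne_zero 2 (fm_div h (a := 0) (b := 1) (by decide)
      (A := fun i => F 0 2 i + (C (-c1) * x 2) * σ i)
      (A' := fun i => F 1 2 i + (C c0 * x 2) * σ i) ?_ ?_ ?_)
    · exact fm_add (h.hF 0 2) h.hσ (fm_cm (h.hx 2) _)
    · intro i
      have := r012 i
      rw [hc] at this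
      rw [C_neg]
      linear_combination this
    · intro i j
      have := wa i j
      unfold w11
      linear_combination this
  · intro c2 c3 hc
    refine h.hxi.ne_zero 0 (fm_div h (a := 2) (b := 3) (by decide)
      (A := fun i => F 0 2 i + (C c3 * x 0) * σ i)
      (A' := fun i => F 0 3 i + (C (-c2) * x 0) * σ i) ?_ ?_ ?_)
    · exact fm_add (h.hF 0 2) h.hσ (fm_cm (h.hx 0) _)
    · intro i
      have := r023 i
      rw [hc] at this
      rw [C_neg]
      linear_combination -this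
    · intro i j
      have := wa i j
      unfold w11
      linear_combination this

theorem tab4 {θ : F2 5} {σ : F1 5} {x : Fin 4 → Pn 5} {F : Fin 4 → Fin 4 → F1 5}
    (h : XD θ false σ x F) : ∃ n k : Pn 5, n.IsHomogeneous 1 ∧ k.IsHomogeneous 1 ∧
      (∀ i, F 0 1 i = n * σ i) ∧ (∀ i, F 1 2 i = F 0 3 i + k * σ i) ∧
      (∀ I i j, w11 (B4 F I) σ i j = sg4 x I.castSucc * θ i j) ∧
      (∀ I J i j, w11 (B4 F I) (B4 F J) i j = k4 x n k I.castSucc J.castSucc * θ i j) ∧
      (∀ c0 c1 : ℂ, n ≠ C c0 * x 0 + C c1 * x 1) := by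
  have p0 : pat false x 0 = 0 := rfl
  have p1 : pat false x 1 = 0 := rfl
  have p2 : pat false x 2 = x 0 := rfl
  have p3 : pat false x 3 = x 1 := rfl
  have x0 := h.hxi.ne_zero 0
  have x1 := h.hxi.ne_zero 1
  obtain ⟨n, hn, e01⟩ := sig_of_w (k := 1) h.e1 h.hσ h.hσ0 (h.hF 0 1).1 (fun i j => by
    rw [h.wedge, p0, p1]; ring)
  have wa : ∀ i j, F 0 2 i * σ j - F 0 2 j * σ i = x 0 ^ 2 * θ i j := fun i j => by
    have := h.wedge 0 2 i j
    rw [p0, p2] at this
    unfold w11 at this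
    linear_combination this
  have wb : ∀ i j, F 0 3 i * σ j - F 0 3 j * σ i = x 0 * x 1 * θ i j := fun i j => by
    have := h.wedge 0 3 i j
    rw [p0, p3] at this
    unfold w11 at this
    linear_combination this
  have wb' : ∀ i j, F 1 2 i * σ j - F 1 2 j * σ i = x 0 * x 1 * θ i j := fun i j => by
    have := h.wedge 1 2 i j
    rw [p1, p2] at this
    unfold w11 at this
    linear_combination this
  have wc : ∀ i j, F 1 3 i * σ j - F 1 3 j * σ i = x 1 ^ 2 * θ i j := fun i j => by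
    have := h.wedge 1 3 i j
    rw [p1, p3] at this
    unfold w11 at this
    linear_combination this
  have wd : ∀ i j, F 2 3 i * σ j - F 2 3 j * σ i = (x 1 * x 2 - x 0 * x 3) * θ i j :=
    fun i j => by
    have := h.wedge 2 3 i j
    rw [p2, p3] at this
    unfold w11 at this
    linear_combination this
  obtain ⟨k, hk, e12⟩ := sig_of_w (k := 1) h.e1 h.hσ h.hσ0 (ξ := fun i => F 1 2 i - F 0 3 i)
    (fun i => ((h.hF 1 2).1 i).sub ((h.hF 0 3).1 i)) (fun i j => by
      have e1 := wb i j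
      have e2 := wb' i j
      unfold w11
      linear_combination e2 - e1)
  have e12' : ∀ i, F 1 2 i = F 0 3 i + k * σ i := fun i => by
    have := e12 i
    linear_combination this
  have r012 : ∀ i, x 0 * F 0 3 i + x 0 * k * σ i - x 1 * F 0 2 i + x 2 * n * σ i = 0 :=
    fun i => by
    have := h.cyc 0 1 2 i
    rw [h.skew 2 0, e01, e12'] at this
    linear_combination this
  have r013 : ∀ i, x 0 * F 1 3 i - x 1 * F 0 3 i + x 3 * n * σ i = 0 := fun i => by
    have := h.cyc 0 1 3 i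
    rw [h.skew 3 0, e01] at this
    linear_combination this
  have r023 : ∀ i, x 0 * F 2 3 i - x 2 * F 0 3 i + x 3 * F 0 2 i = 0 := fun i => by
    have := h.cyc 0 2 3 i
    rw [h.skew 3 0] at this
    linear_combination this
  have r123 : ∀ i, x 1 * F 2 3 i - x 2 * F 1 3 i + x 3 * F 0 3 i + x 3 * k * σ i = 0 :=
    fun i => by
    have := h.cyc 1 2 3 i
    rw [h.skew 3 1, e12'] at this
    linear_combination this
  have ab : ∀ i j, F 0 2 i * F 0 3 j - F 0 2 j * F 0 3 i =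
      -(x 0 * (x 2 * n + k * x 0)) * θ i j := fun i j => by
    apply mul_left_cancel₀ x0
    linear_combination F 0 2 i * r012 j - F 0 2 j * r012 i - (x 2 * n + k * x 0) * wa i j
  have bc : ∀ i j, F 0 3 i * F 1 3 j - F 0 3 j * F 1 3 i = -(x 1 * x 3 * n) * θ i j :=
    fun i j => by
    apply mul_left_cancel₀ x0
    linear_combination F 0 3 i * r013 j - F 0 3 j * r013 i - x 3 * n * wb i j
  have ac : ∀ i j, F 0 2 i * F 1 3 j - F 0 2 j * F 1 3 i =
      -(n * (x 0 * x 3 + x 1 * x 2) + k * x 0 * x 1) * θ i j := fun i j => by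
    apply mul_left_cancel₀ x0
    linear_combination F 0 2 i * r013 j - F 0 2 j * r013 i + x 1 * ab i j - x 3 * n * wa i j
  have ad : ∀ i j, F 0 2 i * F 2 3 j - F 0 2 j * F 2 3 i =
      -(x 2 * (x 2 * n + k * x 0)) * θ i j := fun i j => by
    apply mul_left_cancel₀ x0
    linear_combination F 0 2 i * r023 j - F 0 2 j * r023 i + x 2 * ab i j
  have bd : ∀ i j, F 0 3 i * F 2 3 j - F 0 3 j * F 2 3 i =
      -(x 3 * (x 2 * n + k * x 0)) * θ i j := fun i j => by
    apply mul_left_cancel₀ x0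
    linear_combination F 0 3 i * r023 j - F 0 3 j * r023 i + x 3 * ab i j
  have cd : ∀ i j, F 1 3 i * F 2 3 j - F 1 3 j * F 2 3 i =
      -(x 3 * (x 3 * n + k * x 1)) * θ i j := fun i j => by
    apply mul_left_cancel₀ x1
    linear_combination F 1 3 i * r123 j - F 1 3 j * r123 i + x 3 * bc i j - x 3 * k * wc i j
  have zz : ∀ (A : F1 5) i j, w11 A A i j = 0 * θ i j := fun A i j => by
    unfold w11
    ring
  have neg : ∀ (A B : F1 5) (K : Pn 5) (i j : Fin 5), w11 A B i j = (-K) * θ i j →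
      w11 B A i j = K * θ i j := fun A B K i j hh => by
    unfold w11 at hh ⊢
    linear_combination -hh
  refine ⟨n, k, hn, hk, e01, e12', ?_, ?_, ?_⟩
  · intro I i j
    fin_cases I
    · exact wa i j
    · exact wb i j
    · exact wc i j
    · exact wd i j
  · intro I J i j
    fin_cases I <;> fin_cases J
    · exact zz _ i j
    · exact ab i j
    · exact ac i j
    · exact ad i j
    · exact neg _ _ _ i j (ab i j)
    · exact zz _ i j
    · exact bc i j
    · exact bd i j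
    · exact neg _ _ _ i j (ac i j)
    · exact neg _ _ _ i j (bc i j)
    · exact zz _ i j
    · exact cd i j
    · exact neg _ _ _ i j (ad i j)
    · exact neg _ _ _ i j (bd i j)
    · exact neg _ _ _ i j (cd i j)
    · exact zz _ i j
  · intro c0 c1 hc
    refine h.hxi.ne_zero 0 (fm_div h (a := 0) (b := 1) (by decide)
      (A := fun i => F 0 2 i + (C (-c1) * x 2) * σ i)
      (A' := fun i => F 0 3 i + k * σ i + (C c0 * x 2) * σ i) ?_ ?_ ?_)
    · exact fm_add (h.hF 0 2) h.hσ (fm_cm (h.hx 2) _)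
    · intro i
      have := r012 i
      rw [hc] at this
      rw [C_neg]
      linear_combination this
    · intro i j
      have := wa i j
      unfold w11
      linear_combination this

/-- data of type (X3) in adapted coordinates -/
structure Dat3 (x : Fin 4 → Pn 5) (l : Fin 5 → Pn 5) (n n' : Pn 5) : Prop where
  hx : ∀ a, (x a).IsHomogeneous 1
  hxi : LinearIndependent ℂ x
  hl : ∀ k, (l k).IsHomogeneous 1
  hn : n.IsHomogeneous 1
  hn' : n'.IsHomogeneous 1
  n0 : ∀ c0 c1 : ℂ, n ≠ C c0 * x 0 + C c1 * x 1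
  n0' : ∀ c2 c3 : ℂ, n' ≠ C c2 * x 2 + C c3 * x 3
  l4 : l 4 ≠ 0
  e1 : pderiv 4 (x 1) = 0
  e3 : pderiv 4 (x 3) = 0

/-- data of type (X4) in adapted coordinates -/
structure Dat4 (x : Fin 4 → Pn 5) (l : Fin 5 → Pn 5) (n k : Pn 5) : Prop where
  hx : ∀ a, (x a).IsHomogeneous 1
  hxi : LinearIndependent ℂ x
  hl : ∀ k, (l k).IsHomogeneous 1
  hn : n.IsHomogeneous 1
  hk : k.IsHomogeneous 1
  n0 : ∀ c0 c1 : ℂ, n ≠ C c0 * x 0 + C c1 * x 1
  l4 : l 4 ≠ 0
  e3 : pderiv 4 (x 3) = 0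

private theorem fm_pt {x : Fin 4 → Pn 5} (hx : ∀ a, (x a).IsHomogeneous 1)
    (hxi : LinearIndependent ℂ x) (v : Fin 4 → ℂ) : ∃ z : Fin 5 → ℂ, ∀ a, eval z (x a) = v a := by
  have h1 : ∀ a, ∃ α : Fin 5 → ℂ, x a = lf α := fun a => lf_of_hom (hx a)
  choose α hα using h1
  have hαi : LinearIndependent ℂ α := by
    rw [Fintype.linearIndependent_iff] at hxi ⊢
    intro c hc
    refine hxi c ?_
    have h2 : ∀ a, c a • x a = ∑ i, C ((c a • α a) i) * X i := by
      intro a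
      rw [hα a, smul_eq_C_mul]
      unfold lf
      rw [Finset.mul_sum]
      refine Finset.sum_congr rfl fun i _ => ?_
      rw [Pi.smul_apply, smul_eq_mul, C_mul, mul_assoc]
    rw [Finset.sum_congr rfl fun a _ => h2 a, Finset.sum_comm]
    refine Finset.sum_eq_zero fun i _ => ?_
    rw [← Finset.sum_mul, ← map_sum, ← Finset.sum_apply, hc, Pi.zero_apply, C_0, zero_mul]
  obtain ⟨g, g', hg, hX⟩ := exists_coord (n := 5) (by norm_num) α hαi
  refine ⟨Pool.Agent.Helper93.lmap g (Fin.snoc (α := fun _ => ℂ) v 0), fun a => ?_⟩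
  rw [← Pool.Agent.Helper93.eval_lsub, hα, hX, eval_X]
  have : Fin.castLE (by norm_num : 4 ≤ 5) a = Fin.castSucc a := rfl
  rw [this, Fin.snoc_castSucc]

private theorem fm_back {g g' : Fin 5 → Fin 5 → ℂ} (hg : Inv g g') (f : Pn 5) :
    lsub g' (lsub g f) = f := by
  rw [lsub_mm, hg.1, lsub_idm]

private theorem fm_lin {g g' : Fin 5 → Fin 5 → ℂ} (hg : Inv g g') {x : Fin 4 → Pn 5}
    (hxi : LinearIndependent ℂ x) : LinearIndependent ℂ (fun a => lsub g (x a)) := by
  refine hxi.map' (lsub g).toLinearMap (LinearMap.ker_eq_bot.2 ?_)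
  intro a b hab
  have : lsub g a = lsub g b := hab
  rw [← fm_back hg a, this, fm_back hg]

private theorem fm_pd (g : Fin 5 → Fin 5 → ℂ) {f : Pn 5} (hf : f.IsHomogeneous 1) (j : Fin 5) :
    pderiv j (lsub g f) = C (eval (fun k => g k j) f) := by
  obtain ⟨a, rfl⟩ := lf_of_hom hf
  unfold lf
  rw [map_sum, map_sum, map_sum, map_sum]
  refine Finset.sum_congr rfl fun i _ => ?_
  rw [map_mul (eval _), eval_C, eval_X, C_mul]
  have h1 : lsub g (C (a i) : Pn 5) = C (a i) := by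
    unfold lsub
    rw [aeval_C]
    rfl
  have h2 : lsub g (X i : Pn 5) = ∑ l, C (g i l) * X l := by
    unfold lsub
    rw [aeval_X]
  rw [map_mul (lsub g), h1, h2, pderiv_C_mul, map_sum, Finset.sum_eq_single j]
  · rw [pderiv_C_mul, pderiv_X_self, mul_one]
  · intro l _ hl
    rw [pderiv_C_mul, pderiv_X_of_ne hl, mul_zero]
  · intro hh
    exact absurd (Finset.mem_univ _) hh

private theorem fm_core {θ : F2 5} {s : Bool} {σ : F1 5} {x : Fin 4 → Pn 5}
    {F : Fin 4 → Fin 4 → F1 5} (h : XD θ s σ x F) (hc : ¬ Cone θ) {v : Fin 5 → ℂ} (hv0 : v ≠ 0)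
    (hv : v ∈ WW σ) (hvs : ∀ w ∈ WW σ, ∃ r : ℂ, ∀ k, w k = r * v k)
    {B : Fin 4 → F1 5} {q : Fin 4 → Pn 5} {κ : Fin 4 → Fin 4 → Pn 5}
    (hq : ∀ I i j, w11 (B I) σ i j = q I * θ i j)
    (hκ : ∀ I J i j, w11 (B I) (B J) i j = κ I J * θ i j)
    (hqi : ∀ c : Fin 4 → ℂ, ∑ I, C (c I) * q I = 0 → ∀ I, c I = 0)
    (hgen : ∀ ξ ∈ EE θ 3, ∃ (c : Fin 4 → ℂ) (l : Pn 5), l.IsHomogeneous 1 ∧
      ∀ i, ξ i = - ∑ I, C (c I) * B I i + l * σ i) :
    ∃ (g g' : Fin 5 → Fin 5 → ℂ) (l : Fin 5 → Pn 5), Inv g g' ∧ (∀ k, g k 4 = v k) ∧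
      (∀ k, (l k).IsHomogeneous 1) ∧ l 4 ≠ 0 ∧ ∀ i j, pb2 g θ i j =
        l i * (∑ I : Fin 4, (if j = I.castSucc then lsub g (q I) else 0)) -
        l j * (∑ I : Fin 4, (if i = I.castSucc then lsub g (q I) else 0)) +
        ∑ I : Fin 4, ∑ J : Fin 4, (if i = I.castSucc then
          (if j = J.castSucc then lsub g (κ I J) else 0) else 0) := by
  have h1 : ∀ k, ∃ (c : Fin 4 → ℂ) (l : Pn 5), l.IsHomogeneous 1 ∧
      ∀ j, θ k j = - ∑ I, C (c I) * B I j + l * σ j := by
    intro k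
    obtain ⟨c, l, hl, hcl⟩ := hgen _ (av_mem_EE h.fol.dec h.fol.hom (Pi.single k 1))
    refine ⟨c, l, hl, fun j => ?_⟩
    rw [← hcl j]
    unfold av ct cv
    rw [Finset.sum_eq_single k]
    · rw [Pi.single_eq_same, C_1, one_mul]
    · intro i _ hi
      rw [Pi.single_eq_of_ne hi, C_0, zero_mul]
    · intro hh
      exact absurd (Finset.mem_univ _) hh
  choose c l hl ha using h1
  obtain ⟨hσ, hθ⟩ := abs_form h.fol h.hσ.2 hq hκ ha
  have h2 : ∀ w : Fin 5 → ℂ, ∑ k, C (w k) * σ k = ∑ I, C (∑ k, w k * c k I) * q I := by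
    intro w
    have e : ∀ I, C (∑ k, w k * c k I) * q I = ∑ k, C (w k) * (C (c k I) * q I) := by
      intro I
      rw [map_sum, Finset.sum_mul]
      refine Finset.sum_congr rfl fun k _ => ?_
      rw [C_mul, mul_assoc]
    rw [Finset.sum_congr rfl fun I _ => e I, Finset.sum_comm]
    refine Finset.sum_congr rfl fun k _ => ?_
    rw [hσ k, Finset.mul_sum]
  have hvc : ∀ I, ∑ k, v k * c k I = 0 := by
    refine hqi _ ?_
    rw [← h2]
    exact hv
  obtain ⟨g, g', hg, hg4, hgc⟩ := exists_g (c := c) hv0 hvc (fun w hw => hvs w (by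
    show ∑ k, C (w k) * σ k = 0
    rw [h2]
    exact Finset.sum_eq_zero fun I _ => by rw [hw I, C_0, zero_mul]))
  refine ⟨g, g', fun i => ∑ k, C (g k i) * lsub g (l k), hg, hg4, fun i => ?_, ?_,
    fun i j => form_gl hσ hθ hgc i j⟩
  · refine IsHomogeneous.sum _ _ _ fun k _ => ?_
    exact fm_cm (lsub_hom (hl k)) _
  · intro hz
    have h3 : lsub g (∑ k, C (v k) * l k) = 0 := by
      rw [map_sum, ← hz]
      refine Finset.sum_congr rfl fun k _ => ?_
      have h1 : lsub g (C (v k) : Pn 5) = C (v k) := by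
        unfold lsub
        rw [aeval_C]
        rfl
      rw [map_mul, h1, hg4 k]
    have h4 : ∑ k, C (v k) * l k = 0 := by
      rw [← fm_back hg (∑ k, C (v k) * l k), h3, map_zero]
    refine hc ⟨v, hv0, fun j => ?_⟩
    unfold av ct cv
    have h5 : ∀ k, C (v k) * θ k j = (C (v k) * l k) * σ j - ∑ I, C (v k * c k I) * B I j := by
      intro k
      have e : ∀ I, C (v k * c k I) * B I j = C (v k) * (C (c k I) * B I j) := fun I => by
        rw [C_mul, mul_assoc]
      rw [Finset.sum_congr rfl fun I _ => e I, ← Finset.mul_sum, ha k j]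
      ring
    rw [Finset.sum_congr rfl fun k _ => h5 k, Finset.sum_sub_distrib, ← Finset.sum_mul, h4,
      zero_mul, zero_sub, neg_eq_zero, Finset.sum_comm]
    refine Finset.sum_eq_zero fun I _ => ?_
    rw [← Finset.sum_mul, ← map_sum, hvc I, C_0, zero_mul]

private theorem fm_WW {θ : F2 5} {s : Bool} {σ : F1 5} {x : Fin 4 → Pn 5}
    {F : Fin 4 → Fin 4 → F1 5} (h : XD θ s σ x F) (hw : Module.finrank ℂ (WW σ) ≤ 1) :
    ∃ v : Fin 5 → ℂ, v ≠ 0 ∧ v ∈ WW σ ∧ ∀ w ∈ WW σ, ∃ r : ℂ, ∀ k, w k = r * v k := by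
  have h1 := count_A h.fol h.hσ h.hσ0
  rw [h.e3] at h1
  have h2 : Module.finrank ℂ (WW σ) = 1 := by omega
  obtain ⟨v, hv, hvs⟩ := finrank_eq_one_iff'.1 h2
  refine ⟨v.1, fun hh => hv (Subtype.ext hh), v.2, fun w hw => ?_⟩
  obtain ⟨r, hr⟩ := hvs ⟨w, hw⟩
  refine ⟨r, fun k => ?_⟩
  exact (congrFun (congrArg Subtype.val hr) k).symm

private theorem fm_diag {θ : F2 5} {s : Bool} {σ : F1 5} {x : Fin 4 → Pn 5}
    {F : Fin 4 → Fin 4 → F1 5} (h : XD θ s σ x F) (a : Fin 4) (i : Fin 5) : F a a i = 0 := by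
  have h1 := h.skew a a i
  have h2 : (2 : Pn 5) * F a a i = 0 := by linear_combination h1
  exact (mul_eq_zero.1 h2).resolve_left two_ne_zero

/-- sums with `castSucc` -/
private theorem fm_s1 (f : Fin 5 → Pn 5) (h4 : f 4 = 0) (j : Fin 5) :
    ∑ I : Fin 4, (if j = I.castSucc then f I.castSucc else 0) = f j := by
  refine Fin.lastCases ?_ (fun J => ?_) j
  · rw [Finset.sum_eq_zero]
    · exact h4.symm
    · intro I _
      rw [if_neg (Fin.castSucc_ne_last I).symm]
  · rw [Finset.sum_eq_single J]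
    · rw [if_pos rfl]
    · intro I _ hI
      rw [if_neg]
      intro hh
      exact hI (Fin.castSucc_injective _ hh).symm
    · intro hh
      exact absurd (Finset.mem_univ _) hh

private theorem fm_s2 (K : Fin 5 → Fin 5 → Pn 5) (h4 : ∀ j, K 4 j = 0) (h4' : ∀ i, K i 4 = 0)
    (i j : Fin 5) :
    ∑ I : Fin 4, ∑ J : Fin 4, (if i = I.castSucc then
      (if j = J.castSucc then K I.castSucc J.castSucc else 0) else 0) = K i j := by
  rw [← fm_s1 (fun i => K i j) (h4 j) i]
  refine Finset.sum_congr rfl fun I _ => ?_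
  split_ifs
  · exact fm_s1 (fun j => K I.castSucc j) (h4' _) j
  · exact Finset.sum_const_zero

theorem exists_form3 {θ : F2 5} {σ : F1 5} {x : Fin 4 → Pn 5} {F : Fin 4 → Fin 4 → F1 5}
    (h : XD θ true σ x F) (hw : Module.finrank ℂ (WW σ) ≤ 1) (hc : ¬ Cone θ) :
    ∃ (g g' : Fin 5 → Fin 5 → ℂ) (y : Fin 4 → Pn 5) (l : Fin 5 → Pn 5) (n n' : Pn 5),
      Inv g g' ∧ pb2 g θ = th3 y l n n' ∧ Dat3 y l n n' := by
  obtain ⟨v, hv0, hv, hvs⟩ := fm_WW h hw
  obtain ⟨x, F, h, e3, e1⟩ := XD.norm h v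
  obtain ⟨n, n', hn, hn', e01, e23, hq, hκ, n0, n0'⟩ := tab3 h
  obtain ⟨g, g', l, hg, hg4, hl, hl4, hpb⟩ := fm_core h hc hv0 hv hvs (B := B3 F)
    (q := fun I => sg3 x I.castSucc) (κ := fun I J => k3 x n n' I.castSucc J.castSucc) hq hκ
    (by
      intro c hc
      have key : ∀ w : Fin 4 → ℂ, c 0 * (w 0 * w 2) + c 1 * (w 1 * w 2) + c 2 * (w 0 * w 3) +
          c 3 * (w 1 * w 3) = 0 := by
        intro w
        obtain ⟨z, hz⟩ := fm_pt h.hx h.hxi w
        have := congrArg (eval z) hc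
        rw [map_sum, map_zero, Fin.sum_univ_four] at this
        have e0 : sg3 x (Fin.castSucc 0) = x 0 * x 2 := rfl
        have e1 : sg3 x (Fin.castSucc 1) = x 1 * x 2 := rfl
        have e2 : sg3 x (Fin.castSucc 2) = x 0 * x 3 := rfl
        have e3 : sg3 x (Fin.castSucc 3) = x 1 * x 3 := rfl
        rw [e0, e1, e2, e3] at this
        simp only [map_mul, eval_C, hz] at this
        exact this
      have k1 := key ![1, 0, 1, 0]
      have k2 := key ![0, 1, 1, 0]
      have k3 := key ![1, 0, 0, 1]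
      have k4 := key ![0, 1, 0, 1]
      simp at k1 k2 k3 k4
      intro I
      fin_cases I <;> assumption)
    (by
      intro ξ hξ
      obtain ⟨c, l, hl, hcl⟩ := h.gen hξ
      refine ⟨![c 2 0 - c 0 2, c 2 1 - c 1 2, c 3 0 - c 0 3, c 3 1 - c 1 3],
        l + C (c 0 1 - c 1 0) * n + C (c 2 3 - c 3 2) * n',
        (hl.add (fm_cm hn _)).add (fm_cm hn' _), fun i => ?_⟩
      rw [hcl i]
      simp only [Fin.sum_univ_four, fm_diag h]
      rw [h.skew 1 0, h.skew 2 0, h.skew 3 0, h.skew 2 1, h.skew 3 1, h.skew 3 2, e01, e23]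
      show _ = -(C (c 2 0 - c 0 2) * F 0 2 i + C (c 2 1 - c 1 2) * F 1 2 i +
        C (c 3 0 - c 0 3) * F 0 3 i + C (c 3 1 - c 1 3) * F 1 3 i) + _
      simp only [C_sub]
      ring)
  refine ⟨g, g', fun a => lsub g (x a), l, lsub g n, lsub g n', hg, ?_, ?_⟩
  · funext i j
    rw [hpb i j, fm_s1 (fun j => lsub g (sg3 x j)) (map_zero _),
      fm_s1 (fun j => lsub g (sg3 x j)) (map_zero _),
      fm_s2 (fun i j => lsub g (k3 x n n' i j)) (fun j => ?_) (fun i => ?_)]
    · have s1 : ∀ j, lsub g (sg3 x j) = sg3 (fun a => lsub g (x a)) j := by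
        intro j
        fin_cases j <;> simp [sg3]
      have s2 : ∀ i j, lsub g (k3 x n n' i j) =
          k3 (fun a => lsub g (x a)) (lsub g n) (lsub g n') i j := by
        intro i j
        fin_cases i <;> fin_cases j <;> simp [k3]
      rw [s1, s1, s2]
      rfl
    · have : k3 x n n' 4 j = 0 := by fin_cases j <;> rfl
      rw [this, map_zero]
    · have : k3 x n n' i 4 = 0 := by fin_cases i <;> rfl
      rw [this, map_zero]
  · have hgv : (fun k => g k 4) = v := _root_.funext hg4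
    refine ⟨fun a => lsub_hom (h.hx a), fm_lin hg h.hxi, hl, lsub_hom hn, lsub_hom hn', ?_, ?_, hl4,
      ?_, ?_⟩
    · intro c0 c1 hh
      apply n0 c0 c1
      have := congrArg (lsub g') hh
      simp only [map_add, map_mul] at this
      rw [fm_back hg, fm_back hg, fm_back hg] at this
      rw [this]
      simp [lsub]
    · intro c0 c1 hh
      apply n0' c0 c1
      have := congrArg (lsub g') hh
      simp only [map_add, map_mul] at this
      rw [fm_back hg, fm_back hg, fm_back hg] at this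
      rw [this]
      simp [lsub]
    · rw [fm_pd g (h.hx 1), hgv, e1 rfl, C_0]
    · rw [fm_pd g (h.hx 3), hgv, e3, C_0]

theorem exists_form4 {θ : F2 5} {σ : F1 5} {x : Fin 4 → Pn 5} {F : Fin 4 → Fin 4 → F1 5}
    (h : XD θ false σ x F) (hw : Module.finrank ℂ (WW σ) ≤ 1) (hc : ¬ Cone θ) :
    ∃ (g g' : Fin 5 → Fin 5 → ℂ) (y : Fin 4 → Pn 5) (l : Fin 5 → Pn 5) (n k : Pn 5),
      Inv g g' ∧ pb2 g θ = th4 y l n k ∧ Dat4 y l n k := by
  obtain ⟨v, hv0, hv, hvs⟩ := fm_WW h hw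
  obtain ⟨x, F, h, e3, -⟩ := XD.norm h v
  obtain ⟨n, k, hn, hk, e01, e12, hq, hκ, n0⟩ := tab4 h
  obtain ⟨g, g', l, hg, hg4, hl, hl4, hpb⟩ := fm_core h hc hv0 hv hvs (B := B4 F)
    (q := fun I => sg4 x I.castSucc) (κ := fun I J => k4 x n k I.castSucc J.castSucc) hq hκ
    (by
      intro c hc
      have key : ∀ w : Fin 4 → ℂ, c 0 * w 0 ^ 2 + c 1 * (w 0 * w 1) + c 2 * w 1 ^ 2 +
          c 3 * (w 1 * w 2 - w 0 * w 3) = 0 := by
        intro w
        obtain ⟨z, hz⟩ := fm_pt h.hx h.hxi w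
        have := congrArg (eval z) hc
        rw [map_sum, map_zero, Fin.sum_univ_four] at this
        have e0 : sg4 x (Fin.castSucc 0) = x 0 ^ 2 := rfl
        have e1 : sg4 x (Fin.castSucc 1) = x 0 * x 1 := rfl
        have e2 : sg4 x (Fin.castSucc 2) = x 1 ^ 2 := rfl
        have e3 : sg4 x (Fin.castSucc 3) = x 1 * x 2 - x 0 * x 3 := rfl
        rw [e0, e1, e2, e3] at this
        simp only [map_mul, map_pow, map_sub, eval_C, hz] at this
        exact this
      have k1 := key ![1, 0, 0, 0]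
      have k2 := key ![0, 1, 0, 0]
      have k3 := key ![1, 1, 0, 0]
      have k4 := key ![0, 1, 1, 0]
      simp at k1 k2 k3 k4
      rw [k1, k2, zero_add, add_zero] at k3
      rw [k2, zero_add] at k4
      intro I
      fin_cases I <;> assumption)
    (by
      intro ξ hξ
      obtain ⟨c, l, hl, hcl⟩ := h.gen hξ
      refine ⟨![c 2 0 - c 0 2, (c 3 0 - c 0 3) + (c 2 1 - c 1 2), c 3 1 - c 1 3, c 3 2 - c 2 3],
        l + C (c 0 1 - c 1 0) * n + C (c 1 2 - c 2 1) * k,
        (hl.add (fm_cm hn _)).add (fm_cm hk _), fun i => ?_⟩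
      rw [hcl i]
      simp only [Fin.sum_univ_four, fm_diag h]
      rw [h.skew 1 0, h.skew 2 0, h.skew 3 0, h.skew 2 1, h.skew 3 1, h.skew 3 2, e01, e12]
      show _ = -(C (c 2 0 - c 0 2) * F 0 2 i + C ((c 3 0 - c 0 3) + (c 2 1 - c 1 2)) * F 0 3 i +
        C (c 3 1 - c 1 3) * F 1 3 i + C (c 3 2 - c 2 3) * F 2 3 i) + _
      simp only [C_sub, C_add]
      ring)
  refine ⟨g, g', fun a => lsub g (x a), l, lsub g n, lsub g k, hg, ?_, ?_⟩
  · funext i j
    rw [hpb i j, fm_s1 (fun j => lsub g (sg4 x j)) (map_zero _),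
      fm_s1 (fun j => lsub g (sg4 x j)) (map_zero _),
      fm_s2 (fun i j => lsub g (k4 x n k i j)) (fun j => ?_) (fun i => ?_)]
    · have s1 : ∀ j, lsub g (sg4 x j) = sg4 (fun a => lsub g (x a)) j := by
        intro j
        fin_cases j <;> simp [sg4]
      have s2 : ∀ i j, lsub g (k4 x n k i j) =
          k4 (fun a => lsub g (x a)) (lsub g n) (lsub g k) i j := by
        intro i j
        fin_cases i <;> fin_cases j <;> simp [k4]
      rw [s1, s1, s2]
      rfl
    · have : k4 x n k 4 j = 0 := by fin_cases j <;> rfl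
      rw [this, map_zero]
    · have : k4 x n k i 4 = 0 := by fin_cases i <;> rfl
      rw [this, map_zero]
  · have hgv : (fun k => g k 4) = v := _root_.funext hg4
    refine ⟨fun a => lsub_hom (h.hx a), fm_lin hg h.hxi, hl, lsub_hom hn, lsub_hom hk, ?_, hl4, ?_⟩
    · intro c0 c1 hh
      apply n0 c0 c1
      have := congrArg (lsub g') hh
      simp only [map_add, map_mul] at this
      rw [fm_back hg, fm_back hg, fm_back hg] at this
      rw [this]
      simp [lsub]
    · rw [fm_pd g (h.hx 3), hgv, e3, C_0]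

end Pool.Agent.Helper18.XE
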