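import Pool.Agent.Helper18.XE.Eq3
import Pool.Agent.Helper18.XE.Eq4
import Pool.Agent.Helper18.LB.Desc

/-! Exclusion of case (c): assembly. -/

set_option autoImplicit false

namespace Pool.Agent.Helper18.XE

open MvPolynomial
open Pool.Agent.Helper71.FC
open Pool.Agent.Helper18.LB

theorem noXD : NoXD := by
  intro θ s σ x F h hw hc
  cases s with
  | true =>
    obtain ⟨g, g', y, l, n, n', hg, h1, h2⟩ := exists_form3 h hw hc
    exact no3 h2 (h1 ▸ Closed_pb2 h.fol.closed g)
  | false =>
    obtain ⟨g, g', y, l, n, n', hg, h1, h2⟩ := exists_form4 h hw hc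
    exact no4 h2 (h1 ▸ Closed_pb2 h.fol.closed g)

end Pool.Agent.Helper18.XE
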