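import Pool.Agent.Helper18.XE.Defs

/-! XE-1: changes of the data `x, F` of `XD` and of the explicit forms.
`XD.block`: everything is multilinear; `hxi` because the block matrix is invertible; `wedge`: for `s = true`
`∑ ∑ blk a a' blk b b' (x_a' P_b' - x_b' P_a') = y_a P'_b - y_b P'_a` with `P' = pat true y` because `P = (0, 0, x 2, x 3)` is transformed by the same
block matrix; for `s = false` (`A = B`) `P = (0, 0, x 0, x 1)`: check the six pairs (or `fin_cases`, `ring`).
`XD.norm`: `B = ![![1, 0], ![0, 1]]` if `eval v (x 2) = eval v (x 3) = 0`; otherwise second row `(- ε_3, ε_2)` and first row `(1, 0)` or `(0, 1)` with non zero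
determinant; for `s = true` the same for `A`; for `s = false` `A = B`.
`th3_shift`: `fin_cases` on the indices and `ring` (`x_2 u2 ∧ u3 = σ ∧ u3` etc.).
`form_gl`: `pb2 g` of `l i * σ j - l j * σ i + ∑ C (c i I * c j J) * κ I J` by bilinearity; `∑ k, g k j * c k I = δ`.
`exists_g`: `c : ℂ⁵ → ℂ⁴` linear with one-dimensional kernel is onto: take preimages of the unit vectors and a kernel vector as the columns of `g`. -/

set_option autoImplicit false

namespace Pool.Agent.Helper18.XE

open MvPolynomial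
open scoped BigOperators
open Pool.Agent.Helper71.FC
open Pool.Agent.Helper71.FL (w12 pf ct Dec Closed dd)
open Pool.Agent.Helper18.LB
open Pool.Agent.Helper93 (lsub)

/-- block matrix -/
def blk (A B : Fin 2 → Fin 2 → ℂ) : Fin 4 → Fin 4 → ℂ :=
  ![![A 0 0, A 0 1, 0, 0], ![A 1 0, A 1 1, 0, 0], ![0, 0, B 0 0, B 0 1], ![0, 0, B 1 0, B 1 1]]

/-! ### auxiliary facts -/

private theorem nm_rot3 {A κ : Type} [AddCommMonoid A] [Fintype κ] (f : κ → κ → κ → A) :
    (∑ b, ∑ c, ∑ a, f b c a) = ∑ a, ∑ b, ∑ c, f b c a := by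
  calc (∑ b, ∑ c, ∑ a, f b c a) = ∑ b, ∑ a, ∑ c, f b c a := by
        apply Finset.sum_congr rfl; intro b _
        rw [Finset.sum_comm]
    _ = _ := by rw [Finset.sum_comm]

private theorem nm_rot3' {A κ : Type} [AddCommMonoid A] [Fintype κ] (f : κ → κ → κ → A) :
    (∑ c, ∑ a, ∑ b, f c a b) = ∑ a, ∑ b, ∑ c, f c a b := by
  rw [Finset.sum_comm]
  apply Finset.sum_congr rfl; intro a _
  rw [Finset.sum_comm]

private theorem nm_pat {s : Bool} {x : Fin 4 → Pn 5} {A B : Fin 2 → Fin 2 → ℂ}
    (hs : s = false → A = B) (b : Fin 4) :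
    pat s (fun a => ∑ b, C (blk A B a b) * x b) b = ∑ b', C (blk A B b b') * pat s x b' := by
  cases s with
  | true => fin_cases b <;> simp [pat, blk, Fin.sum_univ_four]
  | false =>
    have h := hs rfl
    subst h
    fin_cases b <;> simp [pat, blk, Fin.sum_univ_four]

private theorem nm_w11 (A B : Fin 2 → Fin 2 → ℂ) (F : Fin 4 → Fin 4 → F1 5) (σ : F1 5)
    (a b : Fin 4) (i j : Fin 5) :
    w11 (fun i => ∑ a', ∑ b', C (blk A B a a' * blk A B b b') * F a' b' i) σ i j =
      ∑ a', ∑ b', C (blk A B a a' * blk A B b b') * w11 (F a' b') σ i j := by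
  unfold w11
  beta_reduce
  simp only [Finset.sum_mul]
  rw [← Finset.sum_sub_distrib]
  refine Finset.sum_congr rfl fun p _ => ?_
  rw [← Finset.sum_sub_distrib]
  refine Finset.sum_congr rfl fun q _ => ?_
  ring

private theorem nm_prod (M : Fin 4 → Fin 4 → ℂ) (x P : Fin 4 → Pn 5) (a b : Fin 4) :
    (∑ a', C (M a a') * x a') * (∑ b', C (M b b') * P b') =
      ∑ a', ∑ b', C (M a a' * M b b') * (x a' * P b') := by
  rw [Finset.sum_mul_sum]
  refine Finset.sum_congr rfl fun p _ => Finset.sum_congr rfl fun q _ => ?_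
  rw [C_mul]
  ring

private theorem nm_prod3 (M : Fin 4 → Fin 4 → ℂ) (x : Fin 4 → Pn 5) (F : Fin 4 → Fin 4 → Pn 5)
    (a b c : Fin 4) :
    (∑ a', C (M a a') * x a') * (∑ b', ∑ c', C (M b b' * M c c') * F b' c') =
      ∑ a', ∑ b', ∑ c', C (M a a' * M b b' * M c c') * (x a' * F b' c') := by
  rw [Finset.sum_mul]
  refine Finset.sum_congr rfl fun p _ => ?_
  rw [Finset.mul_sum]
  refine Finset.sum_congr rfl fun q _ => ?_
  rw [Finset.mul_sum]
  refine Finset.sum_congr rfl fun r _ => ?_
  rw [C_mul, C_mul, C_mul]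
  ring

private theorem nm_row (p q : ℂ) : ∃ B : Fin 2 → Fin 2 → ℂ, B 0 0 * B 1 1 - B 0 1 * B 1 0 ≠ 0 ∧
    B 1 0 * p + B 1 1 * q = 0 := by
  by_cases hp : p = 0
  · by_cases hq : q = 0
    · exact ⟨![![1, 0], ![0, 1]], by simp, by simp [hp, hq]⟩
    · refine ⟨![![0, 1], ![-q, p]], ?_, ?_⟩
      · simp [hq]
      · simp
        ring
  · refine ⟨![![1, 0], ![-q, p]], ?_, ?_⟩
    · simp [hp]
    · simp
      ring

private theorem nm_lsub_C (g : Fin 5 → Fin 5 → ℂ) (c : ℂ) : lsub g (C c : Pn 5) = C c := by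
  unfold lsub
  rw [aeval_C]
  rfl

theorem XD.block {θ : F2 5} {s : Bool} {σ : F1 5} {x : Fin 4 → Pn 5}
    {F : Fin 4 → Fin 4 → F1 5} (h : XD θ s σ x F) {A B : Fin 2 → Fin 2 → ℂ}
    (hA : A 0 0 * A 1 1 - A 0 1 * A 1 0 ≠ 0) (hB : B 0 0 * B 1 1 - B 0 1 * B 1 0 ≠ 0)
    (hs : s = false → A = B) :
    XD θ s σ (fun a => ∑ b, C (blk A B a b) * x b)
      (fun a b i => ∑ a', ∑ b', C (blk A B a a' * blk A B b b') * F a' b' i) := by
  refine ⟨h.fol, h.e1, h.e2, h.e3, h.hσ, h.hσ0, ?_, ?_, ?_, ?_, ?_, ?_⟩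
  · intro a
    apply IsHomogeneous.sum
    intro b _
    have := (isHomogeneous_C (Fin 5) (blk A B a b)).mul (h.hx b)
    rwa [zero_add] at this
  · rw [Fintype.linearIndependent_iff]
    intro g hg
    have h1 : ∑ b, (∑ a, g a * blk A B a b) • x b = 0 := by
      rw [← hg]
      simp only [Finset.sum_smul, Finset.smul_sum]
      rw [Finset.sum_comm]
      refine Finset.sum_congr rfl fun p _ => Finset.sum_congr rfl fun q _ => ?_
      rw [smul_eq_C_mul, smul_eq_C_mul, C_mul]
      ring
    have h2 := Fintype.linearIndependent_iff.1 h.hxi _ h1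
    have k0 := h2 0
    have k1 := h2 1
    have k2 := h2 2
    have k3 := h2 3
    simp [blk, Fin.sum_univ_four] at k0 k1 k2 k3
    have m0 : g 0 * (A 0 0 * A 1 1 - A 0 1 * A 1 0) = 0 := by
      linear_combination A 1 1 * k0 - A 1 0 * k1
    have m1 : g 1 * (A 0 0 * A 1 1 - A 0 1 * A 1 0) = 0 := by
      linear_combination A 0 0 * k1 - A 0 1 * k0
    have m2 : g 2 * (B 0 0 * B 1 1 - B 0 1 * B 1 0) = 0 := by
      linear_combination B 1 1 * k2 - B 1 0 * k3
    have m3 : g 3 * (B 0 0 * B 1 1 - B 0 1 * B 1 0) = 0 := by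
      linear_combination B 0 0 * k3 - B 0 1 * k2
    intro i
    fin_cases i
    · exact (mul_eq_zero.1 m0).resolve_right hA
    · exact (mul_eq_zero.1 m1).resolve_right hA
    · exact (mul_eq_zero.1 m2).resolve_right hB
    · exact (mul_eq_zero.1 m3).resolve_right hB
  · intro a b
    have h1 : (fun i => ∑ a', ∑ b', C (blk A B a a' * blk A B b b') * F a' b' i : F1 5) =
        ∑ a', ∑ b', (blk A B a a' * blk A B b b') • F a' b' := by
      funext i
      rw [Finset.sum_apply]
      refine Finset.sum_congr rfl fun p _ => ?_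
      rw [Finset.sum_apply]
      refine Finset.sum_congr rfl fun q _ => ?_
      rw [Pi.smul_apply, smul_eq_C_mul]
    rw [h1]
    exact Submodule.sum_mem _ fun p _ => Submodule.sum_mem _ fun q _ =>
      Submodule.smul_mem _ _ (h.hF p q)
  · intro a b i
    show ∑ a', ∑ b', C (blk A B a a' * blk A B b b') * F a' b' i =
      -∑ a', ∑ b', C (blk A B b a' * blk A B a b') * F a' b' i
    rw [Finset.sum_comm, ← Finset.sum_neg_distrib]
    refine Finset.sum_congr rfl fun p _ => ?_
    rw [← Finset.sum_neg_distrib]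
    refine Finset.sum_congr rfl fun q _ => ?_
    rw [h.skew q p, mul_comm (blk A B a q)]
    ring
  · intro a b c i
    show (∑ a', C (blk A B a a') * x a') *
        (∑ b', ∑ c', C (blk A B b b' * blk A B c c') * F b' c' i) +
      (∑ a', C (blk A B b a') * x a') *
        (∑ b', ∑ c', C (blk A B c b' * blk A B a c') * F b' c' i) +
      (∑ a', C (blk A B c a') * x a') *
        (∑ b', ∑ c', C (blk A B a b' * blk A B b c') * F b' c' i) = 0
    rw [nm_prod3 (blk A B) x (fun p q => F p q i) a b c,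
      nm_prod3 (blk A B) x (fun p q => F p q i) b c a,
      nm_prod3 (blk A B) x (fun p q => F p q i) c a b]
    rw [nm_rot3 (fun b' c' a' => C (blk A B b b' * blk A B c c' * blk A B a a') * (x b' * F c' a' i)),
      nm_rot3' (fun c' a' b' => C (blk A B c c' * blk A B a a' * blk A B b b') * (x c' * F a' b' i)),
      ← Finset.sum_add_distrib, ← Finset.sum_add_distrib]
    refine Finset.sum_eq_zero fun p _ => ?_
    rw [← Finset.sum_add_distrib, ← Finset.sum_add_distrib]
    refine Finset.sum_eq_zero fun q _ => ?_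
    rw [← Finset.sum_add_distrib, ← Finset.sum_add_distrib]
    refine Finset.sum_eq_zero fun r _ => ?_
    have h1 := h.cyc p q r i
    simp only [C_mul]
    linear_combination (C (blk A B a p) * C (blk A B b q) * C (blk A B c r)) * h1
  · intro a b i j
    rw [nm_w11, nm_pat hs b, nm_pat hs a]
    rw [nm_prod (blk A B) x (pat s x) a b, nm_prod (blk A B) x (pat s x) b a,
      Finset.sum_comm (f := fun a' b' => C (blk A B b a' * blk A B a b') * (x a' * pat s x b')),
      ← Finset.sum_sub_distrib, Finset.sum_mul]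
    refine Finset.sum_congr rfl fun p _ => ?_
    rw [← Finset.sum_sub_distrib, Finset.sum_mul]
    refine Finset.sum_congr rfl fun q _ => ?_
    rw [h.wedge p q i j]
    simp only [C_mul]
    ring

theorem XD.norm {θ : F2 5} {s : Bool} {σ : F1 5} {x : Fin 4 → Pn 5}
    {F : Fin 4 → Fin 4 → F1 5} (h : XD θ s σ x F) (v : Fin 5 → ℂ) :
    ∃ (x' : Fin 4 → Pn 5) (F' : Fin 4 → Fin 4 → F1 5), XD θ s σ x' F' ∧
      eval v (x' 3) = 0 ∧ (s = true → eval v (x' 1) = 0) := by
  obtain ⟨B, hB, hB'⟩ := nm_row (eval v (x 2)) (eval v (x 3))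
  have key : ∀ A : Fin 2 → Fin 2 → ℂ,
      eval v (∑ b, C (blk A B 3 b) * x b) = 0 := by
    intro A
    rw [Fin.sum_univ_four]
    simp [blk]
    exact hB'
  cases s with
  | true =>
    obtain ⟨A, hA, hA'⟩ := nm_row (eval v (x 0)) (eval v (x 1))
    refine ⟨_, _, XD.block h hA hB (by intro h; cases h), key A, fun _ => ?_⟩
    rw [Fin.sum_univ_four]
    simp [blk]
    exact hA'
  | false =>
    exact ⟨_, _, XD.block h hB hB (fun _ => rfl), key B, by intro h; cases h⟩

/-- `n` modulo `x 0, x 1` and `n'` modulo `x 2, x 3` can be changed -/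
theorem th3_shift (x : Fin 4 → Pn 5) (l : Fin 5 → Pn 5) (n n' : Pn 5) (c : Fin 4 → ℂ) :
    th3 x l n n' = th3 x
      (fun i => l i - C (c 2) * (![0, 0, x 0, x 1, 0] : F1 5) i +
        C (c 3) * (![x 0, x 1, 0, 0, 0] : F1 5) i + C (c 0) * (![0, x 2, 0, x 3, 0] : F1 5) i -
        C (c 1) * (![x 2, 0, x 3, 0, 0] : F1 5) i)
      (n - C (c 0) * x 0 - C (c 1) * x 1) (n' - C (c 2) * x 2 - C (c 3) * x 3) := by
  funext i j
  fin_cases i <;> fin_cases j <;> simp [th3, sg3, k3] <;> ring

theorem exists_g {c : Fin 5 → Fin 4 → ℂ} {v : Fin 5 → ℂ} (hv0 : v ≠ 0)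
    (hv : ∀ I, ∑ k, v k * c k I = 0)
    (hk : ∀ w : Fin 5 → ℂ, (∀ I, ∑ k, w k * c k I = 0) → ∃ r : ℂ, ∀ k, w k = r * v k) :
    ∃ g g' : Fin 5 → Fin 5 → ℂ, Inv g g' ∧ (∀ k, g k 4 = v k) ∧
      ∀ (j : Fin 5) (I : Fin 4), ∑ k, g k j * c k I = if j = I.castSucc then 1 else 0 := by
  let T : (Fin 5 → ℂ) →ₗ[ℂ] (Fin 4 → ℂ) :=
    { toFun := fun w I => ∑ k, w k * c k I
      map_add' := by
        intro a b
        funext I
        simp only [Pi.add_apply, add_mul, Finset.sum_add_distrib]
      map_smul' := by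
        intro r a
        funext I
        simp only [Pi.smul_apply, smul_eq_mul, RingHom.id_apply, Finset.mul_sum, mul_assoc] }
  have hker : LinearMap.ker T = Submodule.span ℂ {v} := by
    ext w
    rw [LinearMap.mem_ker, Submodule.mem_span_singleton]
    constructor
    · intro hw
      obtain ⟨r, hr⟩ := hk w (fun I => congrFun hw I)
      refine ⟨r, ?_⟩
      funext k
      rw [Pi.smul_apply, smul_eq_mul, hr k]
    · rintro ⟨r, rfl⟩
      funext I
      show ∑ k, (r • v) k * c k I = 0
      have : ∑ k, (r • v) k * c k I = r * ∑ k, v k * c k I := by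
        rw [Finset.mul_sum]
        refine Finset.sum_congr rfl fun k _ => ?_
        rw [Pi.smul_apply, smul_eq_mul]
        ring
      rw [this, hv I, mul_zero]
  have hsurj : Function.Surjective T := by
    rw [← LinearMap.range_eq_top]
    apply Submodule.eq_top_of_finrank_eq
    have h1 := LinearMap.finrank_range_add_finrank_ker T
    rw [hker, finrank_span_singleton hv0, Module.finrank_fin_fun] at h1
    rw [Module.finrank_fin_fun]
    omega
  choose w hw using fun J : Fin 4 => hsurj (Pi.single J 1)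
  let col : Fin 5 → Fin 5 → ℂ := Fin.snoc (α := fun _ => Fin 5 → ℂ) w v
  have hcol1 : ∀ J : Fin 4, col J.castSucc = w J := fun J => Fin.snoc_castSucc _ _ _
  have hcol2 : col (Fin.last 4) = v := Fin.snoc_last _ _
  have hind : LinearIndependent ℂ col := by
    rw [Fintype.linearIndependent_iff]
    intro a ha
    rw [Fin.sum_univ_castSucc] at ha
    have h1 := congrArg T ha
    rw [map_add, map_sum, map_zero, map_smul, hcol2] at h1
    have h2 : T v = 0 := by
      rw [← LinearMap.mem_ker, hker]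
      exact Submodule.mem_span_singleton_self v
    rw [h2, smul_zero, add_zero] at h1
    have h3 : ∀ J : Fin 4, a J.castSucc = 0 := by
      intro J
      have h4 := congrFun h1 J
      rw [Finset.sum_apply] at h4
      simp only [map_smul, hcol1, hw, Pi.smul_apply, smul_eq_mul, Pi.single_apply, mul_ite, mul_one,
        mul_zero] at h4
      simpa using h4
    have h5 : a (Fin.last 4) • v = 0 := by
      rw [← ha, hcol2]
      simp [h3]
    intro i
    refine Fin.lastCases ?_ h3 i
    exact (smul_eq_zero.1 h5).resolve_right hv0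
  obtain ⟨g, g', hg, hgc⟩ := exists_basis (le_refl 5) col hind
  have hgk : ∀ (j k : Fin 5), g k j = col j k := by
    intro j k
    have h6 := congrFun (hgc j) k
    have h7 : Pool.Agent.Helper93.lmap g (fun l => if l = Fin.castLE (le_refl 5) j then (1 : ℂ) else 0) k = g k j := by
      show ∑ l, g k l * (if l = Fin.castLE (le_refl 5) j then (1 : ℂ) else 0) = g k j
      simp
    rw [← h7]
    exact h6
  refine ⟨g, g', hg, fun k => ?_, fun j I => ?_⟩
  · rw [hgk]
    exact congrFun hcol2 k
  · have h6 : ∑ k, g k j * c k I = T (col j) I := by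
      show ∑ k, g k j * c k I = ∑ k, col j k * c k I
      refine Finset.sum_congr rfl fun k _ => ?_
      rw [hgk]
    rw [h6]
    refine Fin.lastCases ?_ (fun J => ?_) j
    · rw [hcol2]
      have h2 : T v = 0 := by
        rw [← LinearMap.mem_ker, hker]
        exact Submodule.mem_span_singleton_self v
      rw [h2, if_neg (Fin.castSucc_lt_last I).ne']
      rfl
    · rw [hcol1, hw, Pi.single_apply]
      by_cases h7 : I = J
      · rw [if_pos h7, if_pos (by rw [h7])]
      · rw [if_neg h7, if_neg (fun h8 => h7 (Fin.castSucc_injective _ h8).symm)]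

theorem form_gl {θ : F2 5} {l σ : F1 5} {κ : Fin 4 → Fin 4 → Pn 5} {c : Fin 5 → Fin 4 → ℂ}
    {q : Fin 4 → Pn 5} (hσ : ∀ k, σ k = ∑ I, C (c k I) * q I)
    (hθ : ∀ j k, θ j k = l j * σ k - l k * σ j + ∑ I, ∑ J, C (c j I * c k J) * κ I J)
    {g : Fin 5 → Fin 5 → ℂ}
    (hg : ∀ (j : Fin 5) (I : Fin 4), ∑ k, g k j * c k I = if j = I.castSucc then 1 else 0)
    (i j : Fin 5) :
    pb2 g θ i j = (∑ k, C (g k i) * lsub g (l k)) *
        (∑ I : Fin 4, (if j = I.castSucc then lsub g (q I) else 0)) -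
      (∑ k, C (g k j) * lsub g (l k)) *
        (∑ I : Fin 4, (if i = I.castSucc then lsub g (q I) else 0)) +
      ∑ I : Fin 4, ∑ J : Fin 4, (if i = I.castSucc then
        (if j = J.castSucc then lsub g (κ I J) else 0) else 0) := by
  have hδ : ∀ (j : Fin 5) (I : Fin 4), ∑ k, C (g k j) * (C (c k I) : Pn 5) =
      if j = I.castSucc then 1 else 0 := by
    intro j I
    have h1 := congrArg (C : ℂ → Pn 5) (hg j I)
    rw [map_sum] at h1
    simp only [map_mul] at h1
    rw [h1]
    split_ifs
    · exact C_1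
    · exact C_0
  have hS : ∀ j : Fin 5, ∑ k, C (g k j) * lsub g (σ k) =
      ∑ I : Fin 4, (if j = I.castSucc then lsub g (q I) else 0) := by
    intro j
    simp only [hσ, map_sum, map_mul, nm_lsub_C, Finset.mul_sum]
    rw [Finset.sum_comm]
    refine Finset.sum_congr rfl fun I _ => ?_
    have h1 : ∑ k, C (g k j) * (C (c k I) * lsub g (q I)) =
        (∑ k, C (g k j) * (C (c k I) : Pn 5)) * lsub g (q I) := by
      rw [Finset.sum_mul]
      refine Finset.sum_congr rfl fun k _ => ?_
      ring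
    rw [h1, hδ]
    split_ifs
    · rw [one_mul]
    · rw [zero_mul]
  have hK : ∑ k, ∑ l', C (g k i * g l' j) * (∑ I, ∑ J, C (c k I * c l' J) * lsub g (κ I J)) =
      ∑ I : Fin 4, ∑ J : Fin 4, (if i = I.castSucc then
        (if j = J.castSucc then lsub g (κ I J) else 0) else 0) := by
    have h1 : ∑ k, ∑ l', C (g k i * g l' j) * (∑ I, ∑ J, C (c k I * c l' J) * lsub g (κ I J)) =
        ∑ I, ∑ J, ((∑ k, C (g k i) * (C (c k I) : Pn 5)) * (∑ l', C (g l' j) * C (c l' J))) *
          lsub g (κ I J) := by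
      simp only [Finset.mul_sum, Finset.sum_mul, C_mul]
      calc (∑ k, ∑ l', ∑ I, ∑ J, (C (g k i) * C (g l' j)) * ((C (c k I) * C (c l' J)) *
              lsub g (κ I J)))
          = ∑ k, ∑ I, ∑ l', ∑ J, (C (g k i) * C (g l' j)) * ((C (c k I) * C (c l' J)) *
              lsub g (κ I J)) := by
            refine Finset.sum_congr rfl fun k _ => ?_
            rw [Finset.sum_comm]
        _ = ∑ I, ∑ k, ∑ l', ∑ J, (C (g k i) * C (g l' j)) * ((C (c k I) * C (c l' J)) *
              lsub g (κ I J)) := by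
            rw [Finset.sum_comm]
        _ = ∑ I, ∑ J, ∑ l', ∑ k, (C (g k i) * C (c k I)) * (C (g l' j) * C (c l' J)) *
              lsub g (κ I J) := by
            refine Finset.sum_congr rfl fun I _ => ?_
            have h2 : (∑ k, ∑ l', ∑ J, (C (g k i) * C (g l' j)) * ((C (c k I) * C (c l' J)) *
                lsub g (κ I J))) = ∑ k, ∑ J, ∑ l', (C (g k i) * C (g l' j)) *
                ((C (c k I) * C (c l' J)) * lsub g (κ I J)) := by
              refine Finset.sum_congr rfl fun k _ => ?_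
              rw [Finset.sum_comm]
            rw [h2, Finset.sum_comm]
            refine Finset.sum_congr rfl fun J _ => ?_
            rw [Finset.sum_comm]
            refine Finset.sum_congr rfl fun a _ => Finset.sum_congr rfl fun b _ => ?_
            ring
    rw [h1]
    refine Finset.sum_congr rfl fun I _ => Finset.sum_congr rfl fun J _ => ?_
    rw [hδ, hδ]
    split_ifs <;> simp
  rw [← hS j, ← hS i, ← hK]
  unfold pb2
  simp only [hθ, map_add, map_sub, map_mul, map_sum, nm_lsub_C]
  rw [Finset.sum_mul_sum, Finset.sum_mul_sum,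
    Finset.sum_comm (f := fun k l' => C (g k j) * lsub g (l k) * (C (g l' i) * lsub g (σ l'))),
    ← Finset.sum_sub_distrib, ← Finset.sum_add_distrib]
  refine Finset.sum_congr rfl fun a _ => ?_
  rw [← Finset.sum_sub_distrib, ← Finset.sum_add_distrib]
  refine Finset.sum_congr rfl fun b _ => ?_
  ring

end Pool.Agent.Helper18.XE
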